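import Pool.Agent.Helper33.CD.FourthE

/-!
# Module N: the fourth order conclusion
-/

open MeasureTheory Set Filter Topology
open scoped ENNReal NNReal

namespace H13CD

lemma h33_final_alg {N g4 m4 : ℝ} (hN : 1 < N)
    (h : (1 - 1 / N) * (3 - 1 / N) / 72 * g4 + h33Lam N m4 -
      (1 - 1 / N) / (36 * N) * (N / 3 * m4) ≤ 0) :
    (3 * N + 1) * (g4 + (2 * N / 3 + 1) * m4 - (N + 1) ^ 2) ≤
      3 * N * (g4 - N * (N + 2) / 3 * m4) := by
  have hN0 : 0 < N := by linarith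
  have hN1 : 0 < N - 1 := by linarith
  have h3 : 0 < 3 * N - 1 := by linarith
  have e1 : (1 - 1 / N) * (3 - 1 / N) / 72 * g4 + h33Lam N m4 -
      (1 - 1 / N) / (36 * N) * (N / 3 * m4) = (N - 1) * (3 * N - 1) / (72 * N ^ 2) *
      ((3 * N + 1) * (g4 + (2 * N / 3 + 1) * m4 - (N + 1) ^ 2) -
      3 * N * (g4 - N * (N + 2) / 3 * m4)) := by
    unfold h33Lam
    field_simp
    ring
  rw [e1] at h
  have h4 : 0 < (N - 1) * (3 * N - 1) / (72 * N ^ 2) := by positivity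
  by_contra hc
  push Not at hc
  have := mul_pos h4 (sub_pos.2 hc)
  linarith

variable {X : Type*} [MetricSpace X] [CompactSpace X] [MeasurableSpace X] [BorelSpace X]
  {m : Measure X} [IsProbabilityMeasure m]

theorem h33_fourth {N : ℝ} (hN : 1 < N) (hcd : CDr m N) {B : ℝ} (hB : 0 < B) {f g0 : X → ℝ}
    (h : Extremal m N B f g0) :
    Integrable (fun x => g0 x ^ 4) m ∧
      (3 * N + 1) * (∫ x, g0 x ^ 4 ∂m + (2 * N / 3 + 1) * ∫ x, f x ^ 4 ∂m - (N + 1) ^ 2) ≤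
        3 * N * (∫ x, g0 x ^ 4 ∂m - N * (N + 2) / 3 * ∫ x, f x ^ 4 ∂m) := by
  have hm3 : ∫ x, f x ^ 3 ∂m = 0 := by
    refine le_antisymm ?_ (h33_m3_nonneg hN hcd hB h)
    have h1 := h33_m3_nonneg hN hcd hB (h33_neg h)
    have e1 : ∫ x, (-f x) ^ 3 ∂m = -∫ x, f x ^ 3 ∂m := by
      rw [← integral_neg]
      refine integral_congr_ae (ae_of_all _ fun x => ?_)
      simp only []
      ring
    rw [e1] at h1
    linarith
  have hfm := h.lim.meas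
  have hfb := h.lim.bound
  have hgm := h.lim.gmeas
  have hgn := h.lim.gnonneg
  have hg2 := h.lim.gL2
  have hG := h33_G0 h
  have hN0 : 0 < N := by linarith
  obtain ⟨C, hC, a, ha, H⟩ := h33_package hN hcd hB h
  rw [hm3] at H
  obtain ⟨hp, hp1, hκ, hq0, hq1⟩ := h33_p_bounds hN
  obtain ⟨Λ, hΛ⟩ : ∃ Λ, Λ = h33Lam N (∫ x, f x ^ 4 ∂m) := ⟨_, rfl⟩
  rw [← hΛ] at H
  obtain ⟨κ, hκd⟩ : ∃ κ, κ = (1 - 1 / N) * (3 - 1 / N) / 72 := ⟨_, rfl⟩
  rw [← hκd] at H hκ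
  obtain ⟨q, hqd⟩ : ∃ q, q = (1 - 1 / N) / (36 * N) := ⟨_, rfl⟩
  rw [← hqd] at H hq0 hq1
  obtain ⟨L, hL⟩ : ∃ L, L = |Λ| + B ^ 2 * N + C := ⟨_, rfl⟩
  have hL0 : 0 < L := by rw [hL]; positivity
  obtain ⟨c1, hc1⟩ : ∃ c1, c1 = 4 * L / (1 - 1 / N) := ⟨_, rfl⟩
  have hc10 : 0 < c1 := by rw [hc1]; positivity
  obtain ⟨c3, hc3⟩ : ∃ c3, c3 = 2 * c1 + 4 * C ^ 2 * N := ⟨_, rfl⟩
  have hc30 : 0 < c3 := by rw [hc3]; positivity
  obtain ⟨c4, hc4⟩ : ∃ c4, c4 = 2 * c3 + 4 * N := ⟨_, rfl⟩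
  have hc40 : 0 < c4 := by rw [hc4]; positivity
  -- the basic facts
  have key : ∀ ε ∈ Ioo (0 : ℝ) (min a 1), ∃ (P : Measure (X × X)) (ρ0 ρ1 : X → ℝ)
      (I4 : ℝ), IsFiniteMeasure P ∧ Measurable ρ0 ∧ (∀ x, 1 / 2 ≤ ρ0 x) ∧ (∀ x, ρ0 x ≤ 2) ∧
      Cpl P (dens m ρ0) (dens m ρ1) ∧ (∀ x, ρ1 x ≤ 4) ∧
      κ * (1 - C * ε) * I4 + Λ * ε ^ 4 - q * (∫ z, g0 z.1 ^ 2 / ρ0 z.1 * f z.2 ^ 2 ∂P) * ε ^ 4
        ≤ C * ε ^ 5 ∧ κ * I4 ≤ 2 * L * ε ^ 4 ∧ C * ε ≤ 1 / 2 ∧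
      cost P ≤ c4 * ε ^ 2 ∧ ∀ n : ℕ, ε ^ 4 * ∫ x, min (g0 x ^ 2) n ^ 2 ∂m -
        (4 * n * c3 + 4 * n * N + 2 * n * C * N + C * n ^ 2) * ε ^ 5 ≤ I4 := by
    intro ε hε
    have hε0 := hε.1
    have hεa : ε < a := hε.2.trans_le (min_le_left _ _)
    have hε1 : ε < 1 := hε.2.trans_le (min_le_right _ _)
    obtain ⟨P, ρ0, ρ1, s, h0m, h1m, h10, h14, hCε, hρ, hPc, hsm, hsn, hI⟩ := H ε ⟨hε0, hεa⟩
    obtain ⟨b1, b2, b3, b4⟩ := h33_rho_bds hCε hρ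
    have hpos : ∀ x, 0 < ρ0 x := fun x => by linarith [b1 x]
    have hPm : P.map Prod.fst ≤ ENNReal.ofReal 2 • m := h33_map_le hPc b2
    have hPf : IsFiniteMeasure P := h33_fin hPm
    obtain ⟨-, hK⟩ := h33_K_le hPc h0m b1 b2 hfm hfb hgm hg2 hG
    have hKn : 0 ≤ ∫ z, g0 z.1 ^ 2 / ρ0 z.1 * f z.2 ^ 2 ∂P := integral_nonneg fun z => by
      have := hpos z.1
      simp only [Pi.zero_apply]
      positivity
    have hI4n : 0 ≤ ∫ z, dist z.1 z.2 ^ 4 ∂P := integral_nonneg fun z => by positivity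
    have hJn : 0 ≤ ∫ z, (dist z.1 z.2 - s z * g0 z.1) ^ 2 ∂P :=
      integral_nonneg fun z => sq_nonneg _
    have hdm : Measurable (fun z : X × X => dist z.1 z.2) := by
      have : Continuous (fun z : X × X => dist z.1 z.2) := by fun_prop
      exact this.measurable
    have hg2P : Integrable (fun z : X × X => g0 z.1 ^ 2) P := h33_int_fst hPm hg2
    have hg2N : ∫ z, g0 z.1 ^ 2 ∂P ≤ 2 * N := by
      rw [← hG]
      exact (integral_fst_le (by norm_num) hPm hg2 (fun x => sq_nonneg _)).2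
    -- consequences of the inequality
    have t3 : -(|Λ| * ε ^ 4) ≤ Λ * ε ^ 4 := by
      have := mul_le_mul_of_nonneg_right (neg_abs_le Λ) (show 0 ≤ ε ^ 4 by positivity)
      linarith
    have t4 : q * (∫ z, g0 z.1 ^ 2 / ρ0 z.1 * f z.2 ^ 2 ∂P) * ε ^ 4 ≤ B ^ 2 * N * ε ^ 4 := by
      refine mul_le_mul_of_nonneg_right ?_ (by positivity)
      calc q * (∫ z, g0 z.1 ^ 2 / ρ0 z.1 * f z.2 ^ 2 ∂P)
          ≤ 1 * (∫ z, g0 z.1 ^ 2 / ρ0 z.1 * f z.2 ^ 2 ∂P) := mul_le_mul_of_nonneg_right hq1 hKn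
        _ ≤ _ := by rw [one_mul]; exact hK
    have t5 : C * ε ^ 5 ≤ C * ε ^ 4 := by
      refine mul_le_mul_of_nonneg_left ?_ hC.le
      exact pow_le_pow_of_le_one hε0.le hε1.le (by norm_num)
    have t6 : κ * (1 / 2) * ∫ z, dist z.1 z.2 ^ 4 ∂P ≤
        κ * (1 - C * ε) * ∫ z, dist z.1 z.2 ^ 4 ∂P :=
      mul_le_mul_of_nonneg_right (mul_le_mul_of_nonneg_left (by linarith) hκ.le) hI4n
    have t7 : L * ε ^ 4 = |Λ| * ε ^ 4 + B ^ 2 * N * ε ^ 4 + C * ε ^ 4 := by rw [hL]; ring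
    have t8 : 0 ≤ (1 - 1 / N) / 4 * ∫ z, (dist z.1 z.2 - s z * g0 z.1) ^ 2 ∂P := by positivity
    have t9 : 0 ≤ κ * (1 / 2) * ∫ z, dist z.1 z.2 ^ 4 ∂P := by positivity
    have hI' : κ * (1 - C * ε) * (∫ z, dist z.1 z.2 ^ 4 ∂P) +
        (1 - 1 / N) / 4 * (∫ z, (dist z.1 z.2 - s z * g0 z.1) ^ 2 ∂P) + Λ * ε ^ 4 -
        q * (∫ z, g0 z.1 ^ 2 / ρ0 z.1 * f z.2 ^ 2 ∂P) * ε ^ 4 ≤ C * ε ^ 5 := by
      refine le_trans (le_of_eq ?_) hI
      ring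
    have hJ : ∫ z, (dist z.1 z.2 - s z * g0 z.1) ^ 2 ∂P ≤ c1 * ε ^ 4 := by
      have h1 : (1 - 1 / N) / 4 * ∫ z, (dist z.1 z.2 - s z * g0 z.1) ^ 2 ∂P ≤ L * ε ^ 4 := by
        linarith
      rw [hc1]
      have e2 : 4 * L / (1 - 1 / N) * ε ^ 4 = L * ε ^ 4 / ((1 - 1 / N) / 4) := by
        field_simp
      rw [e2, le_div_iff₀ (by positivity), mul_comm]
      exact h1
    -- `∫ (a - ε g)²`
    have hsg : Integrable (fun z : X × X => (dist z.1 z.2 - s z * g0 z.1) ^ 2) P := by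
      have hmaj : Integrable (fun z : X × X => 2 * dist z.1 z.2 ^ 2 +
          2 * (ε + C * ε ^ 2) ^ 2 * g0 z.1 ^ 2) P :=
        ((h33_int_dist_pow 2).const_mul 2).add (hg2P.const_mul _)
      refine hmaj.mono' ((hdm.sub (hsm.mul (hgm.comp measurable_fst))).pow_const
        2).aestronglyMeasurable (ae_of_all _ fun z => ?_)
      rw [Real.norm_eq_abs, abs_of_nonneg (sq_nonneg _)]
      have h1 : |s z| ≤ ε + C * ε ^ 2 := by
        have h2 := abs_le.1 (hsn z)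
        rw [abs_le]
        constructor
        · linarith [h2.1]
        · linarith [h2.2]
      have h3 : (s z * g0 z.1) ^ 2 ≤ (ε + C * ε ^ 2) ^ 2 * g0 z.1 ^ 2 := by
        rw [mul_pow]
        refine mul_le_mul_of_nonneg_right ?_ (sq_nonneg _)
        rw [← sq_abs]
        exact pow_le_pow_left₀ (abs_nonneg _) h1 2
      linarith [sq_nonneg (dist z.1 z.2 + s z * g0 z.1)]
    have hD : ∫ z, (dist z.1 z.2 - ε * g0 z.1) ^ 2 ∂P ≤ c3 * ε ^ 4 := by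
      have h1 : ∫ z, (dist z.1 z.2 - ε * g0 z.1) ^ 2 ∂P ≤
          ∫ z, (2 * (dist z.1 z.2 - s z * g0 z.1) ^ 2 + 2 * (C * ε ^ 2) ^ 2 * g0 z.1 ^ 2) ∂P := by
        refine integral_mono_of_nonneg (ae_of_all _ fun z => sq_nonneg _)
          ((hsg.const_mul 2).add (hg2P.const_mul _)) (ae_of_all _ fun z => ?_)
        simp only []
        have h2 : ((s z - ε) * g0 z.1) ^ 2 ≤ (C * ε ^ 2) ^ 2 * g0 z.1 ^ 2 := by
          rw [mul_pow]
          refine mul_le_mul_of_nonneg_right ?_ (sq_nonneg _)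
          rw [← sq_abs]
          exact pow_le_pow_left₀ (abs_nonneg _) (hsn z) 2
        linarith [sq_nonneg ((dist z.1 z.2 - s z * g0 z.1) - (s z - ε) * g0 z.1)]
      rw [integral_add (hsg.const_mul 2) (hg2P.const_mul _), integral_const_mul,
        integral_const_mul] at h1
      have h3 : 2 * (C * ε ^ 2) ^ 2 * ∫ z, g0 z.1 ^ 2 ∂P ≤ 2 * (C * ε ^ 2) ^ 2 * (2 * N) :=
        mul_le_mul_of_nonneg_left hg2N (by positivity)
      have e3 : c3 * ε ^ 4 = 2 * (c1 * ε ^ 4) + 2 * (C * ε ^ 2) ^ 2 * (2 * N) := by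
        rw [hc3]; ring
      rw [e3]
      linarith
    have hDi : Integrable (fun z : X × X => (dist z.1 z.2 - ε * g0 z.1) ^ 2) P := by
      have hmaj : Integrable (fun z : X × X => 2 * dist z.1 z.2 ^ 2 + 2 * ε ^ 2 * g0 z.1 ^ 2) P :=
        ((h33_int_dist_pow 2).const_mul 2).add (hg2P.const_mul _)
      refine hmaj.mono' ((hdm.sub ((hgm.comp measurable_fst).const_mul ε)).pow_const
        2).aestronglyMeasurable (ae_of_all _ fun z => ?_)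
      rw [Real.norm_eq_abs, abs_of_nonneg (sq_nonneg _)]
      linarith [sq_nonneg (dist z.1 z.2 + ε * g0 z.1)]
    have hcost : cost P ≤ c4 * ε ^ 2 := by
      have h1 : cost P ≤ ∫ z, (2 * (dist z.1 z.2 - ε * g0 z.1) ^ 2 +
          2 * ε ^ 2 * g0 z.1 ^ 2) ∂P := by
        unfold cost
        refine integral_mono_of_nonneg (ae_of_all _ fun z => sq_nonneg _)
          ((hDi.const_mul 2).add (hg2P.const_mul _)) (ae_of_all _ fun z => ?_)
        simp only []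
        linarith [sq_nonneg (dist z.1 z.2 - 2 * (ε * g0 z.1))]
      rw [integral_add (hDi.const_mul 2) (hg2P.const_mul _), integral_const_mul,
        integral_const_mul] at h1
      have h3 : 2 * ε ^ 2 * ∫ z, g0 z.1 ^ 2 ∂P ≤ 2 * ε ^ 2 * (2 * N) :=
        mul_le_mul_of_nonneg_left hg2N (by positivity)
      have h4 : c3 * ε ^ 4 ≤ c3 * ε ^ 2 :=
        mul_le_mul_of_nonneg_left (pow_le_pow_of_le_one hε0.le hε1.le (by norm_num)) hc30.le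
      have e4 : c4 * ε ^ 2 = 2 * (c3 * ε ^ 2) + 2 * ε ^ 2 * (2 * N) := by rw [hc4]; ring
      rw [e4]
      linarith
    refine ⟨P, ρ0, ρ1, ∫ z, dist z.1 z.2 ^ 4 ∂P, hPf, h0m, b1, b2, hPc, h14, ?_, ?_, hCε,
      hcost, ?_⟩
    · linarith
    · linarith
    · intro n
      exact h33_I4_ge hN0.le hPc h0m hCε hC.le hρ hgm hgn hg2 hG hε0 hε1.le hc30.le hD n
  -- fourth moment
  have hS : ∀ n : ℕ, ∫ x, min (g0 x ^ 2) (n : ℝ) ^ 2 ∂m ≤ 2 * L / κ := by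
    intro n
    have h1 : ∫ x, min (g0 x ^ 2) (n : ℝ) ^ 2 ∂m - 2 * L / κ ≤ 0 := by
      refine h33_le_zero (ε0 := min a 1)
        (c := 4 * n * c3 + 4 * n * N + 2 * n * C * N + C * n ^ 2) (by positivity)
        fun ε hε => ?_
      obtain ⟨P, ρ0, ρ1, I4, -, -, -, -, -, -, -, hI4, -, -, hn⟩ := key ε hε
      have hε0 := hε.1
      have h2 := hn n
      have h3 : I4 ≤ 2 * L / κ * ε ^ 4 := by
        rw [div_mul_eq_mul_div, le_div_iff₀ hκ, mul_comm]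
        exact hI4
      have h4 : (∫ x, min (g0 x ^ 2) (n : ℝ) ^ 2 ∂m - 2 * L / κ) * ε ^ 4 ≤
          (4 * n * c3 + 4 * n * N + 2 * n * C * N + C * n ^ 2) * ε * ε ^ 4 := by
        have e5 : (4 * n * c3 + 4 * n * N + 2 * n * C * N + C * n ^ 2) * ε * ε ^ 4 =
          (4 * n * c3 + 4 * n * N + 2 * n * C * N + C * n ^ 2) * ε ^ 5 := by ring
        rw [e5]
        linarith
      exact le_of_mul_le_mul_right h4 (by positivity)
    linarith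
  obtain ⟨hI, hT⟩ := h33_mono (m := m) (F := fun x => g0 x ^ 2) (hgm.pow_const 2)
    (fun x => sq_nonneg _) hS
  have e6 : (fun x => (g0 x ^ 2) ^ 2) = fun x => g0 x ^ 4 := by funext x; ring
  rw [e6] at hI hT
  refine ⟨hI, h33_final_alg hN ?_⟩
  rw [← hκd, ← hqd, ← hΛ]
  have hm22 := h33_G2 h
  rw [← hm22]
  -- first: for every `n` and `lam`
  have hmain : ∀ n : ℕ, ∀ lam > (0 : ℝ), κ * ∫ x, min (g0 x ^ 2) (n : ℝ) ^ 2 ∂m + Λ -
      q * (∫ x, f x ^ 2 * g0 x ^ 2 ∂m + lam * (∫ x, g0 x ^ 4 ∂m + 1)) ≤ 0 := by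
    intro n lam hlam
    have hf2L : MemLp (fun x => f x ^ 2) 2 m := by
      refine MemLp.of_bound (hfm.pow_const 2).aestronglyMeasurable (B ^ 2) (ae_of_all _ fun x => ?_)
      rw [Real.norm_eq_abs, abs_pow]
      exact pow_le_pow_left₀ (abs_nonneg _) (hfb x) 2
    obtain ⟨C', hC', hnd⟩ := near_diag hf2L (show (0 : ℝ) ≤ 4 by norm_num)
      (show 0 < 2 * lam ^ 2 by positivity)
    obtain ⟨c6, hc6⟩ : ∃ c6 : ℝ, c6 = 4 * n * c3 + 4 * n * N + 2 * n * C * N + C * n ^ 2 :=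
      ⟨_, rfl⟩
    have hc60 : 0 ≤ c6 := by rw [hc6]; positivity
    have hg4n : 0 ≤ ∫ x, g0 x ^ 4 ∂m := integral_nonneg fun x => by positivity
    have hSn : 0 ≤ ∫ x, min (g0 x ^ 2) (n : ℝ) ^ 2 ∂m := integral_nonneg fun x => sq_nonneg _
    refine h33_le_zero (ε0 := min a 1) (c := C + κ * c6 +
      κ * C * (∫ x, min (g0 x ^ 2) (n : ℝ) ^ 2 ∂m) + q * (1 / (2 * lam) * (C' * c4)))
      (by positivity) fun ε hε => ?_
    obtain ⟨P, ρ0, ρ1, I4, hPf, h0m, b1, b2, hPc, h14, hin, -, hCε, hcost, hn⟩ := key ε hε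
    have hε0 := hε.1
    have hε1 : ε < 1 := hε.2.trans_le (min_le_right _ _)
    have h2 := hn n
    rw [← hc6] at h2
    have hP1 : P.map Prod.fst ≤ ENNReal.ofReal 4 • m := h33_map_le hPc fun x => by
      linarith [b2 x]
    have hP2 : P.map Prod.snd ≤ ENNReal.ofReal 4 • m := h33_map_le_snd hPc h14
    have h3 := hnd P hP1 hP2
    have h4 := h33_K_le2 (lam := lam) hPc h0m b1 b2 hfm hfb hgm hg2 hI hlam
    generalize (∫ z, (f z.1 ^ 2 - f z.2 ^ 2) ^ 2 ∂P) = R at *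
    generalize (∫ z, g0 z.1 ^ 2 / ρ0 z.1 * f z.2 ^ 2 ∂P) = K at *
    generalize (∫ x, min (g0 x ^ 2) (n : ℝ) ^ 2 ∂m) = S at *
    generalize (∫ x, f x ^ 2 * g0 x ^ 2 ∂m) = M at *
    generalize (∫ x, g0 x ^ 4 ∂m) = g4 at *
    generalize cost P = cst at *
    -- `K`
    have h5 : R ≤ 2 * lam ^ 2 + C' * (c4 * ε ^ 2) :=
      h3.trans (add_le_add le_rfl (mul_le_mul_of_nonneg_left hcost hC'))
    have h6 : 1 / (2 * lam) * R ≤ lam + 1 / (2 * lam) * (C' * c4) * ε ^ 2 := by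
      have h7 := mul_le_mul_of_nonneg_left h5 (show 0 ≤ 1 / (2 * lam) by positivity)
      refine h7.trans (le_of_eq ?_)
      field_simp
    have h7 : K ≤ M + lam * (g4 + 1) + 1 / (2 * lam) * (C' * c4) * ε ^ 2 := by linarith
    have h8 : q * K ≤ q * (M + lam * (g4 + 1) + 1 / (2 * lam) * (C' * c4) * ε ^ 2) :=
      mul_le_mul_of_nonneg_left h7 hq0
    have h9 : κ * (1 - C * ε) * (ε ^ 4 * S - c6 * ε ^ 5) ≤ κ * (1 - C * ε) * I4 :=
      mul_le_mul_of_nonneg_left h2 (mul_nonneg hκ.le (by linarith))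
    have h10 : (κ * (1 - C * ε) * (S - c6 * ε) + Λ - q * (M + lam * (g4 + 1) +
        1 / (2 * lam) * (C' * c4) * ε ^ 2)) * ε ^ 4 ≤ C * ε * ε ^ 4 := by
      have h11 := mul_le_mul_of_nonneg_right h8 (show 0 ≤ ε ^ 4 by positivity)
      have e7 : C * ε * ε ^ 4 = C * ε ^ 5 := by ring
      rw [e7]
      refine le_trans ?_ hin
      have e8 : (κ * (1 - C * ε) * (S - c6 * ε) + Λ - q * (M + lam * (g4 + 1) +
        1 / (2 * lam) * (C' * c4) * ε ^ 2)) * ε ^ 4 =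
        κ * (1 - C * ε) * (ε ^ 4 * S - c6 * ε ^ 5) + Λ * ε ^ 4 - q * (M + lam * (g4 + 1) +
        1 / (2 * lam) * (C' * c4) * ε ^ 2) * ε ^ 4 := by ring
      rw [e8]
      linarith
    have h12 := le_of_mul_le_mul_right h10 (show 0 < ε ^ 4 by positivity)
    have h13 : κ * (1 - C * ε) * (c6 * ε) ≤ κ * c6 * ε := by
      have : κ * (1 - C * ε) * (c6 * ε) = κ * c6 * ε - κ * c6 * ε * (C * ε) := by ring
      rw [this]
      have : 0 ≤ κ * c6 * ε * (C * ε) := by positivity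
      linarith
    have h14' : q * (1 / (2 * lam) * (C' * c4) * ε ^ 2) ≤ q * (1 / (2 * lam) * (C' * c4)) * ε := by
      have e9 : q * (1 / (2 * lam) * (C' * c4) * ε ^ 2) =
        q * (1 / (2 * lam) * (C' * c4)) * ε ^ 2 := by ring
      rw [e9]
      refine mul_le_mul_of_nonneg_left ?_ (by positivity)
      linarith [mul_le_mul_of_nonneg_left hε1.le hε0.le]
    linarith
  -- let `lam → 0`
  have hmain2 : ∀ n : ℕ, κ * ∫ x, min (g0 x ^ 2) (n : ℝ) ^ 2 ∂m + Λ -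
      q * (∫ x, f x ^ 2 * g0 x ^ 2 ∂m) ≤ 0 := by
    intro n
    refine h33_le_zero (ε0 := 1) (c := q * (∫ x, g0 x ^ 4 ∂m + 1)) one_pos fun ε hε => ?_
    have := hmain n ε hε.1
    linarith
  -- let `n → ∞`
  have hlim : Tendsto (fun n : ℕ => κ * ∫ x, min (g0 x ^ 2) (n : ℝ) ^ 2 ∂m + Λ -
      q * (∫ x, f x ^ 2 * g0 x ^ 2 ∂m)) atTop (𝓝 (κ * ∫ x, g0 x ^ 4 ∂m + Λ -
      q * (∫ x, f x ^ 2 * g0 x ^ 2 ∂m))) :=
    ((hT.const_mul κ).add tendsto_const_nhds).sub tendsto_const_nhds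
  exact le_of_tendsto hlim (Eventually.of_forall hmain2)

end H13CD
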