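import Pool.Agent.Helper13.CD.FourthCalc
import Pool.Agent.Helper13.CD.DILim
import Pool.Agent.Helper13.CD.Aux13

/-!
# Auxiliary lemmas for module N (third and fourth order information)
-/

open MeasureTheory Set Filter Topology
open scoped ENNReal NNReal

namespace H13CD

section A
variable {X : Type*} [MetricSpace X] [CompactSpace X] [MeasurableSpace X] [BorelSpace X]
  {m : Measure X} [IsProbabilityMeasure m]

lemma h33_map_le {P : Measure (X × X)} {ρ0 : X → ℝ} {ν : Measure X} (hc : Cpl P (dens m ρ0) ν)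
    {C : ℝ} (hC : ∀ x, ρ0 x ≤ C) : P.map Prod.fst ≤ ENNReal.ofReal C • m := by
  rw [hc.1]; exact dens_le hC

lemma h33_map_le_snd {P : Measure (X × X)} {ρ1 : X → ℝ} {ν : Measure X}
    (hc : Cpl P ν (dens m ρ1)) {C : ℝ} (hC : ∀ x, ρ1 x ≤ C) :
    P.map Prod.snd ≤ ENNReal.ofReal C • m := by
  rw [hc.2]; exact dens_le hC

lemma h33_fin {P : Measure (X × X)} {C : ℝ} (h : P.map Prod.fst ≤ ENNReal.ofReal C • m) :
    IsFiniteMeasure P := by
  constructor
  have e1 : P.map Prod.fst univ = P univ := by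
    rw [Measure.map_apply measurable_fst MeasurableSet.univ, preimage_univ]
  rw [← e1]
  refine lt_of_le_of_lt (h univ) ?_
  rw [Measure.smul_apply, smul_eq_mul]
  exact ENNReal.mul_lt_top ENNReal.ofReal_lt_top (measure_lt_top _ _)

/-- integrability of (integrable function of the first coordinate) times (bounded) -/
lemma h33_int_fst {P : Measure (X × X)} {C : ℝ} (h : P.map Prod.fst ≤ ENNReal.ofReal C • m)
    {k : X → ℝ} (hk : Integrable k m) : Integrable (fun z : X × X => k z.1) P := by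
  have hgi : Integrable k (ENNReal.ofReal C • m) := hk.smul_measure ENNReal.ofReal_ne_top
  have hgm : Integrable k (P.map Prod.fst) := hgi.mono_measure h
  exact hgm.comp_measurable measurable_fst

lemma h33_int_fst_mul {P : Measure (X × X)} {C : ℝ} (h : P.map Prod.fst ≤ ENNReal.ofReal C • m)
    {k : X → ℝ} (hk : Integrable k m) {F : X × X → ℝ} (hF : Measurable F) {D : ℝ}
    (hD : ∀ z, |F z| ≤ D) : Integrable (fun z : X × X => k z.1 * F z) P := by
  refine (h33_int_fst h hk).mul_bdd (c := D) hF.aestronglyMeasurable (ae_of_all _ fun z => ?_)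
  rw [Real.norm_eq_abs]; exact hD z

lemma h33_integral_fst {P : Measure (X × X)} {ρ0 : X → ℝ} {ν : Measure X}
    (hc : Cpl P (dens m ρ0) ν) (h0m : Measurable ρ0) (h0 : ∀ x, 0 ≤ ρ0 x) {k : X → ℝ}
    (hk : Measurable k) : ∫ z, k z.1 ∂P = ∫ x, ρ0 x * k x ∂m := by
  rw [hc.integral_fst hk.aestronglyMeasurable, integral_dens h0m h0]

lemma h33_integral_snd {P : Measure (X × X)} {ρ1 : X → ℝ} {ν : Measure X}
    (hc : Cpl P ν (dens m ρ1)) (h0m : Measurable ρ1) (h0 : ∀ x, 0 ≤ ρ1 x) {k : X → ℝ}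
    (hk : Measurable k) : ∫ z, k z.2 ∂P = ∫ x, ρ1 x * k x ∂m := by
  rw [hc.integral_snd hk.aestronglyMeasurable, integral_dens h0m h0]

/-- integral of `k(x)/ρ0(x)` against a plan with first marginal `ρ0` -/
lemma h33_integral_fst_div {P : Measure (X × X)} {ρ0 : X → ℝ} {ν : Measure X}
    (hc : Cpl P (dens m ρ0) ν) (h0m : Measurable ρ0) (h0 : ∀ x, 0 < ρ0 x) {k : X → ℝ}
    (hk : Measurable k) : ∫ z, k z.1 / ρ0 z.1 ∂P = ∫ x, k x ∂m := by
  rw [h33_integral_fst (k := fun x => k x / ρ0 x) hc h0m (fun x => (h0 x).le) (hk.div h0m)]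
  refine integral_congr_ae (ae_of_all _ fun x => ?_)
  simp only []
  rw [mul_div_assoc', mul_div_cancel_left₀ _ (h0 x).ne']

end A

/-! ### the function `U` -/

lemma h33_qP_hasDerivAt (N ε t : ℝ) :
    HasDerivAt (qP N ε) (-(N - 1) * (ε - (3 * N - 1) / 3 * ε ^ 2 * t)) t := by
  have h1 : HasDerivAt (fun t : ℝ => 1 - (N - 1) * ε * t + (N - 1) * (3 * N - 1) / 6 * ε ^ 2 * t ^ 2)
      (0 - (N - 1) * ε * 1 + (N - 1) * (3 * N - 1) / 6 * ε ^ 2 * (((2 : ℕ) : ℝ) * t ^ (2 - 1) * 1)) t :=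
    ((hasDerivAt_const t (1 : ℝ)).sub ((hasDerivAt_id t).const_mul _)).add
      (((hasDerivAt_id t).pow 2).const_mul _)
  refine h1.congr_deriv ?_
  push_cast
  ring

lemma h33_U_hasDerivAt {N ε t : ℝ} (hN : 1 < N) (h : 0 < qP N ε t) :
    HasDerivAt (fun t => qP N ε t ^ (-(1 / (N - 1))))
      ((ε - (3 * N - 1) / 3 * ε ^ 2 * t) / qP N ε t ^ (N / (N - 1))) t := by
  have h1 := (h33_qP_hasDerivAt N ε t).rpow_const (p := -(1 / (N - 1))) (Or.inl h.ne')
  refine h1.congr_deriv ?_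
  have hN1 : N - 1 ≠ 0 := by linarith
  have e1 : -(1 / (N - 1)) - 1 = -(N / (N - 1)) := by field_simp; ring
  rw [e1, Real.rpow_neg h.le]
  have h2 : qP N ε t ^ (N / (N - 1)) ≠ 0 := (Real.rpow_pos_of_pos h _).ne'
  field_simp

lemma h33_U_rpow {N ε t : ℝ} (hN : 1 < N) (h : 0 < qP N ε t) :
    (qP N ε t ^ (-(1 / (N - 1)))) ^ (-N) = qP N ε t ^ (N / (N - 1)) := by
  rw [← Real.rpow_mul h.le]
  congr 1
  ring

lemma h33_rho_mul_U {N ε t : ℝ} (hN : 1 < N) (h : 0 < qP N ε t) :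
    qP N ε t ^ (N / (N - 1)) * qP N ε t ^ (-(1 / (N - 1))) = qP N ε t := by
  rw [← Real.rpow_add h]
  have hN1 : N - 1 ≠ 0 := by linarith
  have e1 : N / (N - 1) + -(1 / (N - 1)) = 1 := by field_simp; ring
  rw [e1, Real.rpow_one]

lemma h33_mul_rpow_neg {N r : ℝ} (h : 0 < r) : r * r ^ (-(1 / N)) = r ^ (1 - 1 / N) := by
  nth_rewrite 1 [← Real.rpow_one r]
  rw [← Real.rpow_add h]
  rfl

lemma h33_measurable_qP (N ε : ℝ) : Measurable (qP N ε) := by
  unfold qP; fun_prop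

lemma h33_measurable_qQ (ε : ℝ) : Measurable (qQ ε) := by
  unfold qQ; fun_prop

/-- the pointwise algebra: completing the square -/
lemma h33_pointwise {p κ1 a u0 u1 w V r g T δ κ C' : ℝ} (hp : 0 < p) (hκ1 : 0 ≤ κ1)
    (hw : w = (u1 + 2 * u0) / 3) (hw2 : 1 / 2 ≤ w) (hr : 0 < r)
    (hu0 : 1 - C' ≤ u0) (hu1 : 1 - C' ≤ u1) (hκ : κ = κ1 + p / 45)
    (hV : V ^ 2 / (r * w) ≤ T + δ) :
    u1 - u0 + κ * (1 - C') * a ^ 4 + p / 4 * (a - V * g / (r * w)) ^ 2 -
        p / 2 * (g ^ 2 / r * (T + δ)) ≤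
      (1 + p / 6 * a ^ 2 + κ1 * a ^ 4) * u1 + (p * (a ^ 2 / 3 + a ^ 4 / 45) - 1) * u0 -
        p * (V / r * g * a) := by
  have hw0 : 0 < w := by linarith
  have e1 : V / r * g * a = V * g / (r * w) * (w * a) := by
    field_simp
  have e2 : g ^ 2 / r * (V ^ 2 / (r * w)) = (V * g / (r * w)) ^ 2 * w := by
    field_simp
  have h1 : (V * g / (r * w)) ^ 2 * w ≤ g ^ 2 / r * (T + δ) := by
    rw [← e2]; exact mul_le_mul_of_nonneg_left hV (by positivity)
  rw [e1]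
  generalize V * g / (r * w) = s at *
  have h2 : κ * (1 - C') * a ^ 4 ≤ a ^ 4 * (κ1 * u1 + p / 45 * u0) := by
    rw [hκ]
    have h3 : (κ1 + p / 45) * (1 - C') ≤ κ1 * u1 + p / 45 * u0 := by
      have := mul_le_mul_of_nonneg_left hu1 hκ1
      have := mul_le_mul_of_nonneg_left hu0 (show 0 ≤ p / 45 by positivity)
      linarith
    calc (κ1 + p / 45) * (1 - C') * a ^ 4 = a ^ 4 * ((κ1 + p / 45) * (1 - C')) := by ring
      _ ≤ _ := mul_le_mul_of_nonneg_left h3 (by positivity)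
  have h4 : p / 4 * (a - s) ^ 2 ≤ p / 2 * w * (a - s) ^ 2 := by
    have : p / 4 ≤ p / 2 * w := by nlinarith
    exact mul_le_mul_of_nonneg_right this (sq_nonneg _)
  have h5 : p / 2 * (s ^ 2 * w) ≤ p / 2 * (g ^ 2 / r * (T + δ)) :=
    mul_le_mul_of_nonneg_left h1 (by positivity)
  have e3 : (1 + p / 6 * a ^ 2 + κ1 * a ^ 4) * u1 + (p * (a ^ 2 / 3 + a ^ 4 / 45) - 1) * u0 -
        p * (s * (w * a)) = u1 - u0 + a ^ 4 * (κ1 * u1 + p / 45 * u0) +
          p / 2 * w * (a - s) ^ 2 - p / 2 * (s ^ 2 * w) := by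
    rw [hw]; ring
  rw [e3]
  linarith

end H13CD
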