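import Pool.Agent.Helper33.CD.FourthA

/-!
# Module N, inequality (2)
-/

open MeasureTheory Set Filter Topology
open scoped ENNReal NNReal

namespace H13CD

variable {X : Type*} [MetricSpace X] [CompactSpace X] [MeasurableSpace X] [BorelSpace X]
  {m : Measure X} [IsProbabilityMeasure m]

lemma h33_dist_bdd : ∃ D : ℝ, 0 ≤ D ∧ ∀ z : X × X, dist z.1 z.2 ≤ D := by
  have hdc : Continuous (fun z : X × X => dist z.1 z.2) := by fun_prop
  obtain ⟨D, hD⟩ := (isCompact_univ (X := X × X)).exists_bound_of_continuousOn hdc.continuousOn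
  refine ⟨max D 0, le_max_right _ _, fun z => ?_⟩
  have := hD z (mem_univ _)
  rw [Real.norm_eq_abs, abs_of_nonneg dist_nonneg] at this
  exact this.trans (le_max_left _ _)

lemma h33_int_dist_pow {P : Measure (X × X)} [IsFiniteMeasure P] (n : ℕ) :
    Integrable (fun z : X × X => dist z.1 z.2 ^ n) P := by
  obtain ⟨D, hD0, hD⟩ := h33_dist_bdd (X := X)
  have hc : Continuous (fun z : X × X => dist z.1 z.2 ^ n) := by fun_prop
  refine Integrable.of_bound hc.stronglyMeasurable.aestronglyMeasurable (D ^ n)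
    (ae_of_all _ fun z => ?_)
  rw [Real.norm_eq_abs, abs_of_nonneg (by positivity)]
  exact pow_le_pow_left₀ dist_nonneg (hD z) n

theorem h33_fourth_ineq {N : ℝ} (hN : 1 < N) (hcd : CDr m N) {B : ℝ} (hB : 0 < B) {f g0 : X → ℝ}
    (h : Extremal m N B f g0) :
    ∃ C > 0, ∃ ε0 > 0, ∀ ε ∈ Ioo (0 : ℝ) ε0, ∃ P : Measure (X × X),
      Cpl P (dens m fun x => qP N ε (f x) ^ (N / (N - 1)))
        (dens m fun x => (∫ y, qP N ε (f y) ^ (N / (N - 1)) ∂m) * qQ ε (f x)) ∧ IsOpt P ∧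
      ((∫ x, qP N ε (f x) ^ (N / (N - 1)) ∂m) ^ (1 - 1 / N) * ∫ x, qQ ε (f x) ^ (1 - 1 / N) ∂m -
          (1 + (N - 1) * (3 * N - 1) / 6 * ε ^ 2)) +
        (1 - 1 / N) * (3 - 1 / N) / 72 * (1 - C * ε) * ∫ z, dist z.1 z.2 ^ 4 ∂P +
        (1 - 1 / N) / 4 * ∫ z, (dist z.1 z.2 -
          (ε - (3 * N - 1) / 3 * ε ^ 2 * f z.1) * g0 z.1 / (qP N ε (f z.1) ^ (N / (N - 1)) *
            ((((∫ y, qP N ε (f y) ^ (N / (N - 1)) ∂m) * qQ ε (f z.2)) ^ (-(1 / N)) +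
              2 * qP N ε (f z.1) ^ (-(1 / (N - 1)))) / 3))) ^ 2 ∂P
      ≤ (1 - 1 / N) / 2 * (ε ^ 2 * ∫ x, g0 x ^ 2 ∂m - N * ε ^ 3 * ∫ x, f x * g0 x ^ 2 ∂m +
          ε ^ 4 * (-(N * (3 * N - 2) / 6) * ∫ x, f x ^ 2 * g0 x ^ 2 ∂m +
            ((3 * N + 2) / 18 - 1 / (18 * N)) * ∫ x, g0 x ^ 2 ∂m +
            1 / (18 * N) * ∫ z, g0 z.1 ^ 2 / qP N ε (f z.1) ^ (N / (N - 1)) * f z.2 ^ 2 ∂P)) +
        C * ε ^ 5 := by
  have hfm := h.lim.meas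
  have hfb := h.lim.bound
  have hgm := h.lim.gmeas
  have hg2 := h.lim.gL2
  have hN0 : 0 < N := by linarith
  have hN1 : 0 < N - 1 := by linarith
  have hp0 : 0 < 1 - 1 / N := by
    rw [sub_pos, div_lt_one hN0]; exact hN
  have hp1 : 1 - 1 / N ≤ 1 := by
    have : 0 < 1 / N := by positivity
    linarith
  have hGnn : 0 ≤ ∫ x, g0 x ^ 2 ∂m := integral_nonneg fun x => sq_nonneg _
  obtain ⟨C1, hC1, a1, ha1, hent⟩ := ent_expansion hN hB hfm hfb h.mean h.var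
  obtain ⟨a2, ha2, hbd⟩ := qP_bounds hN hB
  obtain ⟨C3, hC3, a3, ha3, hw⟩ := w_expansion hN hB hC1.le
  have h3N : 0 < 3 * N - 1 := by linarith
  refine ⟨C3 * (1 + ∫ x, g0 x ^ 2 ∂m), by positivity,
    min (min a1 a2) (min a3 (min (1 / ((3 * N - 1) * B)) (1 / (2 * C3)))), by positivity,
    fun ε hε => ?_⟩
  have hε0 := hε.1
  have hε1 : ε < a1 := hε.2.trans_le ((min_le_left _ _).trans (min_le_left _ _))
  have hε2 : ε < a2 := hε.2.trans_le ((min_le_left _ _).trans (min_le_right _ _))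
  have hε3 : ε < a3 := hε.2.trans_le ((min_le_right _ _).trans (min_le_left _ _))
  have hε4 : ε < 1 / ((3 * N - 1) * B) :=
    hε.2.trans_le ((min_le_right _ _).trans ((min_le_right _ _).trans (min_le_left _ _)))
  have hε5 : ε < 1 / (2 * C3) :=
    hε.2.trans_le ((min_le_right _ _).trans ((min_le_right _ _).trans (min_le_right _ _)))
  have hfI : ∀ x, f x ∈ Icc (-B) B := fun x => abs_le.1 (hfb x)
  obtain ⟨hM0, -⟩ := hent ε ⟨hε0, hε1⟩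
  have hb := hbd ε ⟨hε0, hε2⟩
  have hw' := hw ε ⟨hε0, hε3⟩
  have hqpos : ∀ t ∈ Icc (-B) B, 0 < qP N ε t := fun t ht => by linarith [(hb t ht).1]
  -- the densities
  obtain ⟨ρ0, hρ0⟩ : ∃ ρ0 : X → ℝ, ρ0 = fun x => qP N ε (f x) ^ (N / (N - 1)) := ⟨_, rfl⟩
  have hρ0m : Measurable ρ0 := by
    rw [hρ0]; exact ((h33_measurable_qP N ε).comp hfm).pow_const _
  have hρ0pos : ∀ x, 0 < ρ0 x := fun x => by
    rw [hρ0]; exact Real.rpow_pos_of_pos (hqpos _ (hfI x)) _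
  have hqe : 0 ≤ N / (N - 1) := by positivity
  have hρ0lo : ∀ x, (1 / 2 : ℝ) ^ (N / (N - 1)) ≤ ρ0 x := fun x => by
    rw [hρ0]
    exact Real.rpow_le_rpow (by norm_num) (hb _ (hfI x)).1 hqe
  have hρ0hi : ∀ x, ρ0 x ≤ (2 : ℝ) ^ (N / (N - 1)) := fun x => by
    rw [hρ0]
    exact Real.rpow_le_rpow (hqpos _ (hfI x)).le (hb _ (hfI x)).2.1 hqe
  have hρ0int : Integrable ρ0 m := by
    refine Integrable.of_bound hρ0m.aestronglyMeasurable ((2 : ℝ) ^ (N / (N - 1)))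
      (ae_of_all _ fun x => ?_)
    rw [Real.norm_eq_abs, abs_of_pos (hρ0pos x)]
    exact hρ0hi x
  obtain ⟨M0, hM0def⟩ : ∃ M0 : ℝ, M0 = ∫ y, qP N ε (f y) ^ (N / (N - 1)) ∂m := ⟨_, rfl⟩
  have hM0ρ : M0 = ∫ y, ρ0 y ∂m := by rw [hM0def, hρ0]
  rw [← hM0def] at hM0
  rw [← hM0def]
  have hM0pos : 0 < M0 := by
    rw [hM0ρ]
    have h1 : ∫ y, (1 / 2 : ℝ) ^ (N / (N - 1)) ∂m ≤ ∫ y, ρ0 y ∂m :=
      integral_mono (integrable_const _) hρ0int hρ0lo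
    rw [integral_const, smul_eq_mul, probReal_univ, one_mul] at h1
    exact lt_of_lt_of_le (by positivity) h1
  obtain ⟨ρ1, hρ1⟩ : ∃ ρ1 : X → ℝ, ρ1 = fun x => M0 * qQ ε (f x) := ⟨_, rfl⟩
  have hQm : Measurable fun x => qQ ε (f x) := (h33_measurable_qQ ε).comp hfm
  have hρ1m : Measurable ρ1 := by rw [hρ1]; exact hQm.const_mul _
  have hρ1b : ∀ x, M0 / 2 ≤ ρ1 x ∧ ρ1 x ≤ 2 * M0 := fun x => by
    rw [hρ1]
    obtain ⟨-, -, h1, h2⟩ := hb _ (hfI x)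
    have e1 := mul_le_mul_of_nonneg_left h1 hM0pos.le
    have e2 := mul_le_mul_of_nonneg_left h2 hM0pos.le
    constructor
    · show M0 / 2 ≤ M0 * qQ ε (f x)
      linarith
    · show M0 * qQ ε (f x) ≤ 2 * M0
      linarith
  have hρ1pos : ∀ x, 0 < ρ1 x := fun x => by linarith [(hρ1b x).1]
  have hf2i : Integrable (fun x => f x ^ 2) m := by
    refine Integrable.of_bound (hfm.pow_const 2).aestronglyMeasurable (B ^ 2)
      (ae_of_all _ fun x => ?_)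
    rw [Real.norm_eq_abs, abs_pow]
    exact pow_le_pow_left₀ (abs_nonneg _) (hfb x) 2
  have hQint : ∫ x, qQ ε (f x) ∂m = 1 := by
    have e1 : ∀ x, qQ ε (f x) = (1 - ε ^ 2 / 6) + ε ^ 2 / 6 * f x ^ 2 := fun x => by
      unfold qQ; ring
    simp only [e1]
    rw [integral_add (integrable_const _) (hf2i.const_mul _), integral_const_mul, h.var,
      integral_const, smul_eq_mul, probReal_univ]
    ring
  have hρ1int : ∫ x, ρ1 x ∂m = M0 := by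
    rw [hρ1]
    simp only []
    rw [integral_const_mul, hQint, mul_one]
  -- the inequality DI
  have hUd : ∀ t ∈ Icc (-B) B, HasDerivAt (fun t => qP N ε t ^ (-(1 / (N - 1))))
      ((ε - (3 * N - 1) / 3 * ε ^ 2 * t) / qP N ε t ^ (N / (N - 1))) t := fun t ht =>
    h33_U_hasDerivAt hN (hqpos t ht)
  have hqc : Continuous (qP N ε) := by unfold qP; fun_prop
  have hU'c : ContinuousOn (fun t => (ε - (3 * N - 1) / 3 * ε ^ 2 * t) / qP N ε t ^ (N / (N - 1)))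
      (Icc (-B) B) := by
    refine ContinuousOn.div (by fun_prop) ?_ ?_
    · exact hqc.continuousOn.rpow_const fun t ht => Or.inl (hqpos t ht).ne'
    · intro t ht; exact (Real.rpow_pos_of_pos (hqpos t ht) _).ne'
  have hUpos : ∀ t ∈ Icc (-B) B, 0 < qP N ε t ^ (-(1 / (N - 1))) := fun t ht =>
    Real.rpow_pos_of_pos (hqpos t ht) _
  have hUN : (fun x => (qP N ε (f x) ^ (-(1 / (N - 1)))) ^ (-N)) = ρ0 := by
    rw [hρ0]; funext x; exact h33_U_rpow hN (hqpos _ (hfI x))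
  obtain ⟨P, hPc, hPo, hPi⟩ := DI_lim hN hcd h.lim hUd hU'c hUpos hρ1m
    (show 0 < M0 / 2 by positivity) hρ1b (by
      have e1 : ∫ x, (qP N ε (f x) ^ (-(1 / (N - 1)))) ^ (-N) ∂m = ∫ x, ρ0 x ∂m := by
        rw [← hUN]
      rw [e1, hρ1int, hM0ρ])
  rw [hUN] at hPc
  have hPm : P.map Prod.fst ≤ ENNReal.ofReal ((2 : ℝ) ^ (N / (N - 1))) • m :=
    h33_map_le hPc hρ0hi
  have hPf : IsFiniteMeasure P := h33_fin hPm
  have hPc' := hPc
  rw [hρ0, hρ1] at hPc'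
  refine ⟨P, hPc', hPo, ?_⟩
  -- abbreviations
  obtain ⟨D, hD0, hD⟩ := h33_dist_bdd (X := X)
  have hρ0x : ∀ x, qP N ε (f x) ^ (N / (N - 1)) = ρ0 x := fun x => by rw [hρ0]
  have hρ1x : ∀ x, M0 * qQ ε (f x) = ρ1 x := fun x => by rw [hρ1]
  simp only [hρ0x, hρ1x] at hPi ⊢
  obtain ⟨u0, hu0⟩ : ∃ u0 : X → ℝ, u0 = fun x => qP N ε (f x) ^ (-(1 / (N - 1))) := ⟨_, rfl⟩
  obtain ⟨u1, hu1⟩ : ∃ u1 : X → ℝ, u1 = fun x => ρ1 x ^ (-(1 / N)) := ⟨_, rfl⟩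
  have hu0x : ∀ x, qP N ε (f x) ^ (-(1 / (N - 1))) = u0 x := fun x => by rw [hu0]
  have hu1x : ∀ x, ρ1 x ^ (-(1 / N)) = u1 x := fun x => by rw [hu1]
  simp only [hu0x, hu1x] at hPi ⊢
  have hu0m : Measurable u0 := by
    rw [hu0]; exact ((h33_measurable_qP N ε).comp hfm).pow_const _
  have hu1m : Measurable u1 := by rw [hu1]; exact hρ1m.pow_const _
  have hu0pos : ∀ x, 0 < u0 x := fun x => by
    rw [hu0]; exact hUpos _ (hfI x)
  have hu1pos : ∀ x, 0 < u1 x := fun x => by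
    rw [hu1]; exact Real.rpow_pos_of_pos (hρ1pos x) _
  have hu0b : ∀ x, u0 x ≤ (1 / 2 : ℝ) ^ (-(1 / (N - 1))) := fun x => by
    rw [hu0]
    exact Real.rpow_le_rpow_of_nonpos (by norm_num) (hb _ (hfI x)).1
      (by rw [neg_nonpos]; positivity)
  have hu1b : ∀ x, u1 x ≤ (M0 / 2) ^ (-(1 / N)) := fun x => by
    rw [hu1]
    exact Real.rpow_le_rpow_of_nonpos (by positivity) (hρ1b x).1
      (by rw [neg_nonpos]; positivity)
  have hwz : ∀ x y, (1 - C3 * ε ≤ (u1 y + 2 * u0 x) / 3 ∧ 1 - C3 * ε ≤ u1 y ∧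
      1 - C3 * ε ≤ u0 x) ∧
      |(ε - (3 * N - 1) / 3 * ε ^ 2 * f x) ^ 2 / (ρ0 x * ((u1 y + 2 * u0 x) / 3)) -
        ε ^ 2 * (1 - N * ε * f x + ε ^ 2 * (-(N * (3 * N - 2) / 6) * f x ^ 2 +
          f y ^ 2 / (18 * N) + (3 * N + 2) / 18 - 1 / (18 * N)))| ≤ C3 * ε ^ 5 := by
    intro x y
    have := hw' (f x) (hfI x) (f y) (hfI y) M0 hM0
    rw [hρ1x, hρ0x, hu0x, hu1x] at this
    exact this
  have hC3ε : C3 * ε ≤ 1 / 2 := by
    rw [lt_div_iff₀ (by positivity)] at hε5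
    linarith
  have hwlo : ∀ x y, 1 / 2 ≤ (u1 y + 2 * u0 x) / 3 := fun x y => by
    linarith [(hwz x y).1.1]
  have hVpos : ∀ x, 0 ≤ ε - (3 * N - 1) / 3 * ε ^ 2 * f x := fun x => by
    rw [lt_div_iff₀ (by positivity)] at hε4
    have h1 : f x ≤ B := (hfI x).2
    have h2 : (3 * N - 1) / 3 * ε ^ 2 * f x ≤ (3 * N - 1) / 3 * ε ^ 2 * B :=
      mul_le_mul_of_nonneg_left h1 (by positivity)
    have h3 : (3 * N - 1) / 3 * ε ^ 2 * B ≤ ε := by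
      have : (3 * N - 1) / 3 * ε ^ 2 * B = ε * (ε * ((3 * N - 1) * B)) / 3 := by ring
      rw [this]
      linarith [mul_le_mul_of_nonneg_left hε4.le hε0.le]
    linarith
  -- pointwise inequality
  obtain ⟨κ1, hκ1⟩ : ∃ κ1 : ℝ, κ1 = (1 - 1 / N) / 180 + (1 - 1 / N) ^ 2 / 72 := ⟨_, rfl⟩
  have hκ1n : 0 ≤ κ1 := by rw [hκ1]; positivity
  obtain ⟨κ, hκ⟩ : ∃ κ : ℝ, κ = (1 - 1 / N) * (3 - 1 / N) / 72 := ⟨_, rfl⟩
  have hκκ : κ = κ1 + (1 - 1 / N) / 45 := by rw [hκ, hκ1]; ring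
  obtain ⟨T, hT⟩ : ∃ T : X × X → ℝ, T = fun z => ε ^ 2 * (1 - N * ε * f z.1 + ε ^ 2 *
      (-(N * (3 * N - 2) / 6) * f z.1 ^ 2 + f z.2 ^ 2 / (18 * N) + (3 * N + 2) / 18 -
        1 / (18 * N))) := ⟨_, rfl⟩
  have hpt : ∀ z : X × X, u1 z.2 - u0 z.1 + κ * (1 - C3 * ε) * dist z.1 z.2 ^ 4 +
      (1 - 1 / N) / 4 * (dist z.1 z.2 - (ε - (3 * N - 1) / 3 * ε ^ 2 * f z.1) * g0 z.1 /
        (ρ0 z.1 * ((u1 z.2 + 2 * u0 z.1) / 3))) ^ 2 -
      (1 - 1 / N) / 2 * (g0 z.1 ^ 2 / ρ0 z.1 * (T z + C3 * ε ^ 5)) ≤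
      (R1 N (dist z.1 z.2) * u1 z.2 + (R2 N (dist z.1 z.2) - 1) * u0 z.1) -
        (1 - 1 / N) * (|(ε - (3 * N - 1) / 3 * ε ^ 2 * f z.1) / ρ0 z.1| * g0 z.1 *
          dist z.1 z.2) := by
    intro z
    obtain ⟨⟨b1, b2, b3⟩, b4⟩ := hwz z.1 z.2
    rw [abs_of_nonneg (div_nonneg (hVpos z.1) (hρ0pos z.1).le)]
    have h1 := h33_pointwise (p := 1 - 1 / N) (κ1 := κ1) (a := dist z.1 z.2) (u0 := u0 z.1)
      (u1 := u1 z.2) (w := (u1 z.2 + 2 * u0 z.1) / 3) (V := ε - (3 * N - 1) / 3 * ε ^ 2 * f z.1)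
      (r := ρ0 z.1) (g := g0 z.1) (T := T z) (δ := C3 * ε ^ 5) (κ := κ) (C' := C3 * ε)
      hp0 hκ1n rfl (hwlo _ _) (hρ0pos _) b3 b2 hκκ (by
        rw [hT]; simp only []; linarith [(abs_le.1 b4).2])
    unfold R1 R2
    rw [hκ1] at h1
    exact h1
  -- integrability
  have hd4 : Integrable (fun z : X × X => dist z.1 z.2 ^ 4) P := h33_int_dist_pow 4
  have hbdd : ∀ (F : X × X → ℝ), Measurable F → ∀ D, (∀ z, |F z| ≤ D) → Integrable F P :=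
    fun F hF D hD => Integrable.of_bound hF.aestronglyMeasurable D (ae_of_all _ fun z => by
      rw [Real.norm_eq_abs]; exact hD z)
  have hu1i : Integrable (fun z : X × X => u1 z.2) P := hbdd _ (hu1m.comp measurable_snd)
    ((M0 / 2) ^ (-(1 / N))) fun z => by
      rw [abs_of_pos (hu1pos _)]; exact hu1b _
  have hu0i : Integrable (fun z : X × X => u0 z.1) P := hbdd _ (hu0m.comp measurable_fst)
    ((1 / 2 : ℝ) ^ (-(1 / (N - 1)))) fun z => by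
      rw [abs_of_pos (hu0pos _)]; exact hu0b _
  have hdm : Measurable (fun z : X × X => dist z.1 z.2) := by
    have : Continuous (fun z : X × X => dist z.1 z.2) := by fun_prop
    exact this.measurable
  have hg1i : Integrable g0 m := by
    have := (memLp_two_of_sq hgm.aestronglyMeasurable hg2).integrable (by norm_num)
    exact this
  -- the right side is integrable
  have hR1i : Integrable (fun z : X × X => R1 N (dist z.1 z.2) * u1 z.2 +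
      (R2 N (dist z.1 z.2) - 1) * u0 z.1) P := by
    have hc1 : Continuous (fun a : ℝ => R1 N a) := by unfold R1; fun_prop
    have hc2 : Continuous (fun a : ℝ => R2 N a - 1) := by unfold R2; fun_prop
    obtain ⟨D1, hD1⟩ := (isCompact_Icc (a := (0 : ℝ)) (b := D)).exists_bound_of_continuousOn
      hc1.continuousOn
    obtain ⟨D2, hD2⟩ := (isCompact_Icc (a := (0 : ℝ)) (b := D)).exists_bound_of_continuousOn
      hc2.continuousOn
    refine Integrable.add ?_ ?_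
    · refine hu1i.bdd_mul (c := D1) ((hc1.measurable.comp hdm).aestronglyMeasurable)
        (ae_of_all _ fun z => hD1 _ ⟨dist_nonneg, hD z⟩)
    · refine hu0i.bdd_mul (c := D2) ((hc2.measurable.comp hdm).aestronglyMeasurable)
        (ae_of_all _ fun z => hD2 _ ⟨dist_nonneg, hD z⟩)
  have hρlo0 : (0 : ℝ) < (1 / 2 : ℝ) ^ (N / (N - 1)) := by positivity
  obtain ⟨r0, hr0⟩ : ∃ r0 : ℝ, r0 = (1 / 2 : ℝ) ^ (N / (N - 1)) := ⟨_, rfl⟩
  rw [← hr0] at hρ0lo hρlo0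
  have hVb : ∀ x, |ε - (3 * N - 1) / 3 * ε ^ 2 * f x| ≤ ε + (3 * N - 1) / 3 * ε ^ 2 * B := by
    intro x
    refine (abs_sub _ _).trans ?_
    rw [abs_of_pos hε0, abs_mul, abs_of_nonneg (show 0 ≤ (3 * N - 1) / 3 * ε ^ 2 by positivity)]
    have := mul_le_mul_of_nonneg_left (hfb x) (show 0 ≤ (3 * N - 1) / 3 * ε ^ 2 by positivity)
    linarith
  have hVm : Measurable fun x => ε - (3 * N - 1) / 3 * ε ^ 2 * f x :=
    measurable_const.sub (hfm.const_mul _)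
  have hR2i : Integrable (fun z : X × X => |(ε - (3 * N - 1) / 3 * ε ^ 2 * f z.1) / ρ0 z.1| *
      g0 z.1 * dist z.1 z.2) P := by
    have h1 : Integrable (fun x => g0 x) m := hg1i
    refine (h33_int_fst_mul hPm h1 (F := fun z : X × X =>
      |(ε - (3 * N - 1) / 3 * ε ^ 2 * f z.1) / ρ0 z.1| * dist z.1 z.2) ?_
      (D := (ε + (3 * N - 1) / 3 * ε ^ 2 * B) / r0 * D) ?_).congr (ae_of_all _ fun z => ?_)
    · exact ((measurable_norm.comp ((hVm.div hρ0m).comp measurable_fst))).mul hdm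
    · intro z
      rw [abs_mul, abs_abs, abs_div, abs_of_pos (hρ0pos _), abs_of_nonneg dist_nonneg]
      refine mul_le_mul ?_ (hD z) dist_nonneg (by positivity)
      exact div_le_div₀ (by positivity) (hVb _) hρlo0 (hρ0lo _)
    · simp only []; ring
  -- the quadratic term is integrable
  have hg2r : Integrable (fun z : X × X => g0 z.1 ^ 2) P := h33_int_fst hPm hg2
  have hsm : Measurable fun z : X × X => (ε - (3 * N - 1) / 3 * ε ^ 2 * f z.1) * g0 z.1 /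
      (ρ0 z.1 * ((u1 z.2 + 2 * u0 z.1) / 3)) := by
    refine ((hVm.comp measurable_fst).mul (hgm.comp measurable_fst)).div
      ((hρ0m.comp measurable_fst).mul (((hu1m.comp measurable_snd).add
        ((hu0m.comp measurable_fst).const_mul 2)).div_const 3))
  have hqi : Integrable (fun z : X × X => (dist z.1 z.2 - (ε - (3 * N - 1) / 3 * ε ^ 2 * f z.1) *
      g0 z.1 / (ρ0 z.1 * ((u1 z.2 + 2 * u0 z.1) / 3))) ^ 2) P := by
    have hmaj : Integrable (fun z : X × X => 2 * dist z.1 z.2 ^ 2 +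
        2 * (2 * (ε + (3 * N - 1) / 3 * ε ^ 2 * B) / r0) ^ 2 * g0 z.1 ^ 2) P :=
      ((h33_int_dist_pow 2).const_mul 2).add (hg2r.const_mul _)
    refine hmaj.mono' ((hdm.sub hsm).pow_const 2).aestronglyMeasurable (ae_of_all _ fun z => ?_)
    rw [Real.norm_eq_abs, abs_of_nonneg (sq_nonneg _)]
    have h1 : |(ε - (3 * N - 1) / 3 * ε ^ 2 * f z.1) * g0 z.1 /
        (ρ0 z.1 * ((u1 z.2 + 2 * u0 z.1) / 3))| ≤
        2 * (ε + (3 * N - 1) / 3 * ε ^ 2 * B) / r0 * |g0 z.1| := by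
      have hwp : 0 < (u1 z.2 + 2 * u0 z.1) / 3 := by linarith [hwlo z.1 z.2]
      rw [abs_div, abs_mul, abs_of_pos (mul_pos (hρ0pos z.1) hwp)]
      rw [div_le_iff₀ (mul_pos (hρ0pos z.1) hwp)]
      have h2 : r0 * (1 / 2) ≤ ρ0 z.1 * ((u1 z.2 + 2 * u0 z.1) / 3) :=
        mul_le_mul (hρ0lo _) (hwlo _ _) (by norm_num) (hρ0pos _).le
      have h3 : 2 * (ε + (3 * N - 1) / 3 * ε ^ 2 * B) / r0 * |g0 z.1| *
          (r0 * (1 / 2)) = (ε + (3 * N - 1) / 3 * ε ^ 2 * B) * |g0 z.1| := by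
        field_simp
      calc |ε - (3 * N - 1) / 3 * ε ^ 2 * f z.1| * |g0 z.1|
          ≤ (ε + (3 * N - 1) / 3 * ε ^ 2 * B) * |g0 z.1| :=
            mul_le_mul_of_nonneg_right (hVb _) (abs_nonneg _)
        _ = _ := h3.symm
        _ ≤ _ := mul_le_mul_of_nonneg_left h2 (by positivity)
    have h4 : ((ε - (3 * N - 1) / 3 * ε ^ 2 * f z.1) * g0 z.1 /
        (ρ0 z.1 * ((u1 z.2 + 2 * u0 z.1) / 3))) ^ 2 ≤
        (2 * (ε + (3 * N - 1) / 3 * ε ^ 2 * B) / r0) ^ 2 * g0 z.1 ^ 2 := by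
      rw [← sq_abs, ← sq_abs (g0 z.1), ← mul_pow]
      exact pow_le_pow_left₀ (abs_nonneg _) h1 2
    generalize (ε - (3 * N - 1) / 3 * ε ^ 2 * f z.1) * g0 z.1 /
        (ρ0 z.1 * ((u1 z.2 + 2 * u0 z.1) / 3)) = s at *
    linarith [sq_nonneg (dist z.1 z.2 + s)]
  -- the main term is integrable
  have hg2d : ∀ k : X → ℝ, Measurable k → (∃ D, ∀ x, |k x| ≤ D) →
      Integrable (fun z : X × X => k z.1 * g0 z.1 ^ 2 / ρ0 z.1) P ∧
      ∫ z, k z.1 * g0 z.1 ^ 2 / ρ0 z.1 ∂P = ∫ x, k x * g0 x ^ 2 ∂m := by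
    intro k hk ⟨Dk, hDk⟩
    refine ⟨?_, h33_integral_fst_div (k := fun x => k x * g0 x ^ 2) hPc hρ0m hρ0pos
      (hk.mul (hgm.pow_const 2))⟩
    refine (h33_int_fst_mul hPm hg2 (F := fun z : X × X => k z.1 / ρ0 z.1)
      ((hk.div hρ0m).comp measurable_fst) (D := Dk / r0) ?_).congr (ae_of_all _ fun z => ?_)
    · intro z
      rw [abs_div, abs_of_pos (hρ0pos _)]
      exact div_le_div₀ ((abs_nonneg _).trans (hDk z.1)) (hDk _) hρlo0 (hρ0lo _)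
    · simp only []; ring
  obtain ⟨i0, e0⟩ := hg2d (fun _ => 1) measurable_const ⟨1, fun x => by simp⟩
  obtain ⟨i1, e1⟩ := hg2d f hfm ⟨B, hfb⟩
  obtain ⟨i2, e2⟩ := hg2d (fun x => f x ^ 2) (hfm.pow_const 2) ⟨B ^ 2, fun x => by
    rw [abs_pow]; exact pow_le_pow_left₀ (abs_nonneg _) (hfb x) 2⟩
  simp only [one_mul] at i0 e0
  have i3 : Integrable (fun z : X × X => g0 z.1 ^ 2 / ρ0 z.1 * f z.2 ^ 2) P := by
    refine i0.mul_bdd (c := B ^ 2) ((hfm.comp measurable_snd).pow_const 2).aestronglyMeasurable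
      (ae_of_all _ fun z => ?_)
    rw [Real.norm_eq_abs, abs_pow]
    exact pow_le_pow_left₀ (abs_nonneg _) (hfb _) 2
  -- expansion of the main term
  have hT4 : (fun z : X × X => g0 z.1 ^ 2 / ρ0 z.1 * (T z + C3 * ε ^ 5)) = fun z =>
      (ε ^ 2 + ε ^ 4 * ((3 * N + 2) / 18 - 1 / (18 * N)) + C3 * ε ^ 5) *
        (g0 z.1 ^ 2 / ρ0 z.1) + (-(N * ε ^ 3)) * (f z.1 * g0 z.1 ^ 2 / ρ0 z.1) +
      ε ^ 4 * -(N * (3 * N - 2) / 6) * (f z.1 ^ 2 * g0 z.1 ^ 2 / ρ0 z.1) +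
      ε ^ 4 * (1 / (18 * N)) * (g0 z.1 ^ 2 / ρ0 z.1 * f z.2 ^ 2) := by
    funext z
    rw [hT]
    simp only []
    ring
  have j1 := i0.const_mul (ε ^ 2 + ε ^ 4 * ((3 * N + 2) / 18 - 1 / (18 * N)) + C3 * ε ^ 5)
  have j2 := i1.const_mul (-(N * ε ^ 3))
  have j3 := i2.const_mul (ε ^ 4 * -(N * (3 * N - 2) / 6))
  have j4 := i3.const_mul (ε ^ 4 * (1 / (18 * N)))
  have j12 : Integrable (fun z : X × X =>
      (ε ^ 2 + ε ^ 4 * ((3 * N + 2) / 18 - 1 / (18 * N)) + C3 * ε ^ 5) *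
        (g0 z.1 ^ 2 / ρ0 z.1) + (-(N * ε ^ 3)) * (f z.1 * g0 z.1 ^ 2 / ρ0 z.1)) P := j1.add j2
  have j123 : Integrable (fun z : X × X =>
      (ε ^ 2 + ε ^ 4 * ((3 * N + 2) / 18 - 1 / (18 * N)) + C3 * ε ^ 5) *
        (g0 z.1 ^ 2 / ρ0 z.1) + (-(N * ε ^ 3)) * (f z.1 * g0 z.1 ^ 2 / ρ0 z.1) +
      ε ^ 4 * -(N * (3 * N - 2) / 6) * (f z.1 ^ 2 * g0 z.1 ^ 2 / ρ0 z.1)) P := j12.add j3
  have hTi : Integrable (fun z : X × X => g0 z.1 ^ 2 / ρ0 z.1 * (T z + C3 * ε ^ 5)) P := by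
    rw [hT4]
    exact j123.add j4
  have hTv : ∫ z, g0 z.1 ^ 2 / ρ0 z.1 * (T z + C3 * ε ^ 5) ∂P =
      (ε ^ 2 + ε ^ 4 * ((3 * N + 2) / 18 - 1 / (18 * N)) + C3 * ε ^ 5) * ∫ x, g0 x ^ 2 ∂m +
      (-(N * ε ^ 3)) * ∫ x, f x * g0 x ^ 2 ∂m +
      ε ^ 4 * -(N * (3 * N - 2) / 6) * ∫ x, f x ^ 2 * g0 x ^ 2 ∂m +
      ε ^ 4 * (1 / (18 * N)) * ∫ z, g0 z.1 ^ 2 / ρ0 z.1 * f z.2 ^ 2 ∂P := by
    rw [hT4, integral_add j123 j4, integral_add j12 j3,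
      integral_add j1 j2, integral_const_mul, integral_const_mul, integral_const_mul,
      integral_const_mul, e0, e1, e2]
  -- integrals of `u1`, `u0`
  have hIu1 : ∫ z, u1 z.2 ∂P = M0 ^ (1 - 1 / N) * ∫ x, qQ ε (f x) ^ (1 - 1 / N) ∂m := by
    rw [h33_integral_snd hPc hρ1m (fun x => (hρ1pos x).le) hu1m, ← integral_const_mul]
    refine integral_congr_ae (ae_of_all _ fun x => ?_)
    simp only []
    rw [hu1]
    simp only []
    rw [h33_mul_rpow_neg (hρ1pos x), ← hρ1x]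
    exact Real.mul_rpow hM0pos.le (by linarith [(hb _ (hfI x)).2.2.1])
  have hIu0 : ∫ z, u0 z.1 ∂P = 1 + (N - 1) * (3 * N - 1) / 6 * ε ^ 2 := by
    rw [h33_integral_fst hPc hρ0m (fun x => (hρ0pos x).le) hu0m]
    have e3 : ∀ x, ρ0 x * u0 x = 1 + (-(N - 1) * ε) * f x +
        ((N - 1) * (3 * N - 1) / 6 * ε ^ 2) * f x ^ 2 := fun x => by
      rw [← hρ0x, ← hu0x, h33_rho_mul_U hN (hqpos _ (hfI x))]
      unfold qP; ring
    simp only [e3]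
    have hfi : Integrable f m := Integrable.of_bound hfm.aestronglyMeasurable B
      (ae_of_all _ fun x => by rw [Real.norm_eq_abs]; exact hfb x)
    have k1 : Integrable (fun x => 1 + (-(N - 1) * ε) * f x) m :=
      (integrable_const _).add (hfi.const_mul _)
    rw [integral_add k1 (hf2i.const_mul _), integral_add (integrable_const _) (hfi.const_mul _),
      integral_const_mul, integral_const_mul, h.mean, h.var, integral_const, smul_eq_mul,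
      probReal_univ]
    ring
  -- integrate
  have hI1 : Integrable (fun z : X × X => u1 z.2 - u0 z.1) P := hu1i.sub hu0i
  have hI2 : Integrable (fun z : X × X => κ * (1 - C3 * ε) * dist z.1 z.2 ^ 4) P :=
    hd4.const_mul _
  have hI3 : Integrable (fun z : X × X => (1 - 1 / N) / 4 * (dist z.1 z.2 -
      (ε - (3 * N - 1) / 3 * ε ^ 2 * f z.1) * g0 z.1 /
        (ρ0 z.1 * ((u1 z.2 + 2 * u0 z.1) / 3))) ^ 2) P := hqi.const_mul _
  have hI4 : Integrable (fun z : X × X => (1 - 1 / N) / 2 *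
      (g0 z.1 ^ 2 / ρ0 z.1 * (T z + C3 * ε ^ 5))) P := hTi.const_mul _
  have hI12 : Integrable (fun z : X × X => u1 z.2 - u0 z.1 + κ * (1 - C3 * ε) *
      dist z.1 z.2 ^ 4) P := hI1.add hI2
  have hI123 : Integrable (fun z : X × X => u1 z.2 - u0 z.1 + κ * (1 - C3 * ε) *
      dist z.1 z.2 ^ 4 + (1 - 1 / N) / 4 * (dist z.1 z.2 -
      (ε - (3 * N - 1) / 3 * ε ^ 2 * f z.1) * g0 z.1 /
        (ρ0 z.1 * ((u1 z.2 + 2 * u0 z.1) / 3))) ^ 2) P := hI12.add hI3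
  have hI1234 : Integrable (fun z : X × X => u1 z.2 - u0 z.1 + κ * (1 - C3 * ε) *
      dist z.1 z.2 ^ 4 + (1 - 1 / N) / 4 * (dist z.1 z.2 -
      (ε - (3 * N - 1) / 3 * ε ^ 2 * f z.1) * g0 z.1 /
        (ρ0 z.1 * ((u1 z.2 + 2 * u0 z.1) / 3))) ^ 2 - (1 - 1 / N) / 2 *
      (g0 z.1 ^ 2 / ρ0 z.1 * (T z + C3 * ε ^ 5))) P := hI123.sub hI4
  have hRR : Integrable (fun z : X × X => (R1 N (dist z.1 z.2) * u1 z.2 +
      (R2 N (dist z.1 z.2) - 1) * u0 z.1) - (1 - 1 / N) *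
        (|(ε - (3 * N - 1) / 3 * ε ^ 2 * f z.1) / ρ0 z.1| * g0 z.1 * dist z.1 z.2)) P :=
    hR1i.sub (hR2i.const_mul (1 - 1 / N))
  have hmono := integral_mono hI1234 hRR hpt
  have hL : ∫ z, (u1 z.2 - u0 z.1 + κ * (1 - C3 * ε) *
      dist z.1 z.2 ^ 4 + (1 - 1 / N) / 4 * (dist z.1 z.2 -
      (ε - (3 * N - 1) / 3 * ε ^ 2 * f z.1) * g0 z.1 /
        (ρ0 z.1 * ((u1 z.2 + 2 * u0 z.1) / 3))) ^ 2 - (1 - 1 / N) / 2 *
      (g0 z.1 ^ 2 / ρ0 z.1 * (T z + C3 * ε ^ 5))) ∂P =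
      (∫ z, u1 z.2 ∂P - ∫ z, u0 z.1 ∂P) + κ * (1 - C3 * ε) * ∫ z, dist z.1 z.2 ^ 4 ∂P +
      (1 - 1 / N) / 4 * ∫ z, (dist z.1 z.2 - (ε - (3 * N - 1) / 3 * ε ^ 2 * f z.1) * g0 z.1 /
        (ρ0 z.1 * ((u1 z.2 + 2 * u0 z.1) / 3))) ^ 2 ∂P -
      (1 - 1 / N) / 2 * ∫ z, g0 z.1 ^ 2 / ρ0 z.1 * (T z + C3 * ε ^ 5) ∂P := by
    rw [integral_sub hI123 hI4, integral_add hI12 hI3,
      integral_add hI1 hI2, integral_sub hu1i hu0i, integral_const_mul, integral_const_mul,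
      integral_const_mul]
  have hR : ∫ z, ((R1 N (dist z.1 z.2) * u1 z.2 +
      (R2 N (dist z.1 z.2) - 1) * u0 z.1) - (1 - 1 / N) *
        (|(ε - (3 * N - 1) / 3 * ε ^ 2 * f z.1) / ρ0 z.1| * g0 z.1 * dist z.1 z.2)) ∂P =
      ∫ z, (R1 N (dist z.1 z.2) * u1 z.2 + (R2 N (dist z.1 z.2) - 1) * u0 z.1) ∂P -
      (1 - 1 / N) * ∫ z, |(ε - (3 * N - 1) / 3 * ε ^ 2 * f z.1) / ρ0 z.1| * g0 z.1 *
        dist z.1 z.2 ∂P := by
    rw [integral_sub hR1i (hR2i.const_mul (1 - 1 / N)), integral_const_mul]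
  have hfin : (∫ z, u1 z.2 ∂P - ∫ z, u0 z.1 ∂P) + κ * (1 - C3 * ε) * ∫ z, dist z.1 z.2 ^ 4 ∂P +
      (1 - 1 / N) / 4 * ∫ z, (dist z.1 z.2 - (ε - (3 * N - 1) / 3 * ε ^ 2 * f z.1) * g0 z.1 /
        (ρ0 z.1 * ((u1 z.2 + 2 * u0 z.1) / 3))) ^ 2 ∂P -
      (1 - 1 / N) / 2 * ∫ z, g0 z.1 ^ 2 / ρ0 z.1 * (T z + C3 * ε ^ 5) ∂P ≤ 0 := by
    rw [← hL]
    refine hmono.trans ?_
    rw [hR]
    linarith
  rw [hTv, hIu1, hIu0] at hfin
  rw [← hκ]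
  have hd4n : 0 ≤ ∫ z, dist z.1 z.2 ^ 4 ∂P := integral_nonneg fun z => by positivity
  have hκn : 0 ≤ κ := by rw [hκκ]; positivity
  generalize (∫ z, dist z.1 z.2 ^ 4 ∂P) = I4 at *
  generalize (∫ z, (dist z.1 z.2 - (ε - (3 * N - 1) / 3 * ε ^ 2 * f z.1) * g0 z.1 /
        (ρ0 z.1 * ((u1 z.2 + 2 * u0 z.1) / 3))) ^ 2 ∂P) = I5 at *
  generalize (∫ z, g0 z.1 ^ 2 / ρ0 z.1 * f z.2 ^ 2 ∂P) = I6 at *
  generalize (∫ x, g0 x ^ 2 ∂m) = G at *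
  have k1 : κ * (1 - C3 * (1 + G) * ε) * I4 ≤ κ * (1 - C3 * ε) * I4 := by
    refine mul_le_mul_of_nonneg_right (mul_le_mul_of_nonneg_left ?_ hκn) hd4n
    linarith [mul_nonneg (mul_nonneg hC3.le hGnn) hε0.le]
  have k2 : (1 - 1 / N) / 2 * (C3 * ε ^ 5 * G) ≤ C3 * (1 + G) * ε ^ 5 := by
    have h1 : 0 ≤ C3 * ε ^ 5 * G := by positivity
    have h2 : (1 - 1 / N) / 2 ≤ 1 := by linarith
    have h3 := mul_le_mul_of_nonneg_right h2 h1
    have h4 : 0 ≤ C3 * ε ^ 5 := by positivity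
    linarith
  linarith
end H13CD
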