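import Pool.Agent.Helper33.CD.FourthB

/-!
# Module N: the reduced inequality
-/

open MeasureTheory Set Filter Topology
open scoped ENNReal NNReal

namespace H13CD

lemma h33_rho_near {N B : ℝ} :
    ∃ C > 0, ∃ ε0 > 0, ∀ ε ∈ Ioo (0 : ℝ) ε0, ∀ t ∈ Icc (-B) B,
      |qP N ε t ^ (N / (N - 1)) - 1| ≤ C * ε := by
  have h1 := H84FC.bigO_comp (n := 1) (H84FC.qP_sub_one N (isCompact_Icc (a := -B) (b := B))
    (f := fun t : ℝ => t) continuous_id) one_pos (H84FC.rpow_t0 (N / (N - 1))) rfl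
  obtain ⟨C, hC, a, ha, k⟩ := H84FC.bigO_iff.1 h1
  refine ⟨C, hC, a, ha, fun ε hε t ht => ?_⟩
  have := k ε hε t ht
  simp only [pow_one] at this
  rw [qP_eq84, H84FC.qP_eq]
  exact this

section B
variable {X : Type*} [MetricSpace X] [CompactSpace X] [MeasurableSpace X] [BorelSpace X]
  {m : Measure X} [IsProbabilityMeasure m]

/-- the extremal package is symmetric -/
lemma h33_neg {N B : ℝ} {f g0 : X → ℝ} (h : Extremal m N B f g0) :
    Extremal m N B (fun x => - f x) g0 := by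
  obtain ⟨fn, h1, h2, h3, h4⟩ := h.lim.approx
  refine ⟨⟨h.lim.meas.neg, fun x => by rw [abs_neg]; exact h.lim.bound x, h.lim.gmeas,
    h.lim.gnonneg, h.lim.gL2, fun n x => - fn n x, ?_, ?_, ?_, ?_⟩, ?_, ?_, ?_, ?_⟩
  · intro n
    obtain ⟨K, hK⟩ := h1 n
    exact ⟨K, hK.neg⟩
  · intro n x
    rw [abs_neg]
    exact h2 n x
  · refine h3.congr fun n => ?_
    refine integral_congr_ae (ae_of_all _ fun x => ?_)
    simp only []
    ring
  · refine h4.congr fun n => ?_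
    refine integral_congr_ae (ae_of_all _ fun x => ?_)
    simp only []
    rw [lip_neg]
  · rw [integral_neg, h.mean, neg_zero]
  · rw [← h.var]
    refine integral_congr_ae (ae_of_all _ fun x => ?_)
    simp only []
    ring
  · intro g hg
    obtain ⟨K, hK⟩ := hg
    have h5 := h.el1 (fun x => - g x) ⟨K, hK.neg⟩
    have e1 : ∫ x, f x * -g x ∂m = ∫ x, -f x * g x ∂m := by
      refine integral_congr_ae (ae_of_all _ fun x => ?_)
      simp only []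
      ring
    have e2 : ∫ x, g0 x * lip (fun y => - g y) x ∂m = ∫ x, g0 x * lip g x ∂m := by
      refine integral_congr_ae (ae_of_all _ fun x => ?_)
      simp only []
      rw [lip_neg]
    rw [e1, e2] at h5
    exact h5
  · intro Φ Φ' hΦ hΦ'
    have h5 := h.el2 (fun t => - Φ (-t)) (fun t => Φ' (-t)) (fun t => by
      have := (hΦ (-t)).comp t (hasDerivAt_neg t)
      exact this.neg.congr_deriv (by ring)) (hΦ'.comp continuous_neg)
    have e1 : ∫ x, f x * -Φ (-f x) ∂m = ∫ x, -f x * Φ (-f x) ∂m := by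
      refine integral_congr_ae (ae_of_all _ fun x => ?_)
      simp only []
      ring
    rw [e1] at h5
    exact h5

lemma h33_G0 {N B : ℝ} {f g0 : X → ℝ} (h : Extremal m N B f g0) : ∫ x, g0 x ^ 2 ∂m = N := by
  have h1 := h.el2 (fun t => t) (fun _ => 1) (fun t => hasDerivAt_id t) continuous_const
  have e1 : ∫ x, f x * f x ∂m = 1 := by
    rw [← h.var]
    refine integral_congr_ae (ae_of_all _ fun x => ?_)
    simp only []
    ring
  simp only [mul_one] at h1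
  rw [e1, mul_one] at h1
  exact h1.symm

lemma h33_G1 {N B : ℝ} {f g0 : X → ℝ} (h : Extremal m N B f g0) :
    ∫ x, f x * g0 x ^ 2 ∂m = N / 2 * ∫ x, f x ^ 3 ∂m := by
  have h1 := h.el2 (fun t => t ^ 2) (fun t => 2 * t) (fun t => by
    have := hasDerivAt_pow 2 t
    simpa using this) (by fun_prop)
  have e1 : ∫ x, f x * f x ^ 2 ∂m = ∫ x, f x ^ 3 ∂m := by
    refine integral_congr_ae (ae_of_all _ fun x => ?_)
    simp only []
    ring
  have e2 : ∫ x, g0 x ^ 2 * (2 * f x) ∂m = 2 * ∫ x, f x * g0 x ^ 2 ∂m := by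
    rw [← integral_const_mul]
    refine integral_congr_ae (ae_of_all _ fun x => ?_)
    simp only []
    ring
  rw [e1, e2] at h1
  linarith

lemma h33_G2 {N B : ℝ} {f g0 : X → ℝ} (h : Extremal m N B f g0) :
    ∫ x, f x ^ 2 * g0 x ^ 2 ∂m = N / 3 * ∫ x, f x ^ 4 ∂m := by
  have h1 := h.el2 (fun t => t ^ 3) (fun t => 3 * t ^ 2) (fun t => by
    have := hasDerivAt_pow 3 t
    simpa using this) (by fun_prop)
  have e1 : ∫ x, f x * f x ^ 3 ∂m = ∫ x, f x ^ 4 ∂m := by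
    refine integral_congr_ae (ae_of_all _ fun x => ?_)
    simp only []
    ring
  have e2 : ∫ x, g0 x ^ 2 * (3 * f x ^ 2) ∂m = 3 * ∫ x, f x ^ 2 * g0 x ^ 2 ∂m := by
    rw [← integral_const_mul]
    refine integral_congr_ae (ae_of_all _ fun x => ?_)
    simp only []
    ring
  rw [e1, e2] at h1
  linarith

/-- the constant of order `ε⁴` -/
noncomputable def h33Lam (N m4 : ℝ) : ℝ :=
  (N - 1) / 72 * ((-3 * N ^ 2 + 15 * N + 7) * m4 - (3 * N + 2) ^ 2 - (m4 - 1) / N ^ 2) -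
    (1 - 1 / N) / 2 * (-(N * (3 * N - 2) / 6) * (N / 3 * m4) +
      ((3 * N + 2) / 18 - 1 / (18 * N)) * N)

lemma h33_slope_alg {v x e cv c6 : ℝ} (he : 0 < e) (hv : |v - 1| ≤ cv * e) (hcv : cv * e ≤ 1 / 2)
    (hx : |v ^ 2 * x - 1| ≤ c6 * e) : |e * v * x - e| ≤ 2 * (cv + c6) * e ^ 2 := by
  have hv0 : 1 / 2 ≤ v := by linarith [(abs_le.1 hv).1]
  have hv1 : 0 < v := by linarith
  have e1 : e * v * x - e = e * ((v ^ 2 * x - 1) - (v - 1)) / v := by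
    field_simp
    ring
  rw [e1, abs_div, abs_of_pos hv1, div_le_iff₀ hv1, abs_mul, abs_of_pos he]
  have h1 : |(v ^ 2 * x - 1) - (v - 1)| ≤ (cv + c6) * e := by
    refine (abs_sub _ _).trans ?_
    linarith
  have h2 : 0 ≤ (cv + c6) * e := (abs_nonneg _).trans h1
  calc e * |(v ^ 2 * x - 1) - (v - 1)| ≤ e * ((cv + c6) * e) :=
        mul_le_mul_of_nonneg_left h1 he.le
    _ = 2 * (cv + c6) * e ^ 2 * (1 / 2) := by ring
    _ ≤ 2 * (cv + c6) * e ^ 2 * v := by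
        refine mul_le_mul_of_nonneg_left hv0 ?_
        have : 2 * (cv + c6) * e ^ 2 = 2 * e * ((cv + c6) * e) := by ring
        rw [this]
        positivity

theorem h33_package {N : ℝ} (hN : 1 < N) (hcd : CDr m N) {B : ℝ} (hB : 0 < B) {f g0 : X → ℝ}
    (h : Extremal m N B f g0) :
    ∃ C > 0, ∃ ε0 > 0, ∀ ε ∈ Ioo (0 : ℝ) ε0, ∃ (P : Measure (X × X)) (ρ0 ρ1 : X → ℝ)
      (s : X × X → ℝ), Measurable ρ0 ∧ Measurable ρ1 ∧ (∀ x, 0 ≤ ρ1 x) ∧ (∀ x, ρ1 x ≤ 4) ∧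
      C * ε ≤ 1 / 2 ∧ (∀ x, |ρ0 x - 1| ≤ C * ε) ∧ Cpl P (dens m ρ0) (dens m ρ1) ∧
      Measurable s ∧ (∀ z, |s z - ε| ≤ C * ε ^ 2) ∧
      (-((N - 1) * (N + 2) / 12) * (∫ x, f x ^ 3 ∂m) * ε ^ 3 +
        (1 - 1 / N) * (3 - 1 / N) / 72 * (1 - C * ε) * ∫ z, dist z.1 z.2 ^ 4 ∂P +
        (1 - 1 / N) / 4 * ∫ z, (dist z.1 z.2 - s z * g0 z.1) ^ 2 ∂P +
        h33Lam N (∫ x, f x ^ 4 ∂m) * ε ^ 4 -
        (1 - 1 / N) / (36 * N) * (∫ z, g0 z.1 ^ 2 / ρ0 z.1 * f z.2 ^ 2 ∂P) * ε ^ 4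
      ≤ C * ε ^ 5) := by
  have hfm := h.lim.meas
  have hfb := h.lim.bound
  have hgm := h.lim.gmeas
  have hg2 := h.lim.gL2
  have hN0 : 0 < N := by linarith
  have hN1 : 0 < N - 1 := by linarith
  have h3N : 0 < 3 * N - 1 := by linarith
  have hfI : ∀ x, f x ∈ Icc (-B) B := fun x => abs_le.1 (hfb x)
  obtain ⟨C1, hC1, a1, ha1, hent⟩ := ent_expansion hN hB hfm hfb h.mean h.var
  obtain ⟨a2, ha2, hbd⟩ := qP_bounds hN hB
  obtain ⟨C3, hC3, a3, ha3, hw⟩ := w_expansion hN hB hC1.le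
  obtain ⟨C4, hC4, a4, ha4, hρn⟩ := h33_rho_near (N := N) (B := B)
  obtain ⟨C5, hC5, a5, ha5, hineq⟩ := h33_fourth_ineq hN hcd hB h
  -- constants
  obtain ⟨cv, hcv⟩ : ∃ cv : ℝ, cv = (3 * N - 1) / 3 * B := ⟨_, rfl⟩
  have hcv0 : 0 < cv := by rw [hcv]; positivity
  obtain ⟨c7, hc7⟩ : ∃ c7 : ℝ, c7 = |-(N * (3 * N - 2) / 6)| * B ^ 2 + B ^ 2 / (18 * N) +
    |(3 * N + 2) / 18 - 1 / (18 * N)| := ⟨_, rfl⟩
  have hc70 : 0 ≤ c7 := by rw [hc7]; positivity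
  obtain ⟨c6, hc6⟩ : ∃ c6 : ℝ, c6 = N * B + c7 + C3 := ⟨_, rfl⟩
  have hc60 : 0 < c6 := by rw [hc6]; positivity
  obtain ⟨C, hC⟩ : ∃ C : ℝ, C = C1 + C3 + C4 + C5 + 2 * (cv + c6) := ⟨_, rfl⟩
  have hC0 : 0 < C := by rw [hC]; positivity
  refine ⟨C, hC0, min (min (min a1 a2) (min a3 a4)) (min (min a5 1) (1 / (2 * C))),
    by positivity, fun ε hε => ?_⟩
  have hε0 := hε.1
  have hεA := hε.2.trans_le (min_le_left _ _)
  have hεB := hε.2.trans_le (min_le_right _ _)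
  have hε1 : ε < a1 := hεA.trans_le ((min_le_left _ _).trans (min_le_left _ _))
  have hε2 : ε < a2 := hεA.trans_le ((min_le_left _ _).trans (min_le_right _ _))
  have hε3 : ε < a3 := hεA.trans_le ((min_le_right _ _).trans (min_le_left _ _))
  have hε4 : ε < a4 := hεA.trans_le ((min_le_right _ _).trans (min_le_right _ _))
  have hε5 : ε < a5 := hεB.trans_le ((min_le_left _ _).trans (min_le_left _ _))
  have hε6 : ε < 1 := hεB.trans_le ((min_le_left _ _).trans (min_le_right _ _))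
  have hε7 : ε < 1 / (2 * C) := hεB.trans_le (min_le_right _ _)
  have hCε : C * ε ≤ 1 / 2 := by
    rw [lt_div_iff₀ (by positivity)] at hε7
    linarith
  obtain ⟨hM0, hE⟩ := hent ε ⟨hε0, hε1⟩
  have hb := hbd ε ⟨hε0, hε2⟩
  have hw' := hw ε ⟨hε0, hε3⟩
  have hρ := hρn ε ⟨hε0, hε4⟩
  obtain ⟨P, hPc, -, hI⟩ := hineq ε ⟨hε0, hε5⟩
  have hqpos : ∀ t ∈ Icc (-B) B, 0 < qP N ε t := fun t ht => by linarith [(hb t ht).1]
  obtain ⟨ρ0, hρ0⟩ : ∃ ρ0 : X → ℝ, ρ0 = fun x => qP N ε (f x) ^ (N / (N - 1)) := ⟨_, rfl⟩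
  have hρ0m : Measurable ρ0 := by
    rw [hρ0]; exact ((h33_measurable_qP N ε).comp hfm).pow_const _
  have hρ0x : ∀ x, qP N ε (f x) ^ (N / (N - 1)) = ρ0 x := fun x => by rw [hρ0]
  have hρ0n : ∀ x, |ρ0 x - 1| ≤ C * ε := fun x => by
    rw [← hρ0x]
    refine (hρ _ (hfI x)).trans (mul_le_mul_of_nonneg_right ?_ hε0.le)
    rw [hC]; linarith [hcv0, hc60]
  have hρ0lo : ∀ x, 1 / 2 ≤ ρ0 x := fun x => by linarith [(abs_le.1 (hρ0n x)).1]
  have hρ0hi : ∀ x, ρ0 x ≤ 3 / 2 := fun x => by linarith [(abs_le.1 (hρ0n x)).2]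
  have hρ0pos : ∀ x, 0 < ρ0 x := fun x => by linarith [hρ0lo x]
  have hρ0int : Integrable ρ0 m := by
    refine Integrable.of_bound hρ0m.aestronglyMeasurable (3 / 2)
      (ae_of_all _ fun x => ?_)
    rw [Real.norm_eq_abs, abs_of_pos (hρ0pos x)]
    exact hρ0hi x
  obtain ⟨M0, hM0def⟩ : ∃ M0 : ℝ, M0 = ∫ y, qP N ε (f y) ^ (N / (N - 1)) ∂m := ⟨_, rfl⟩
  rw [← hM0def] at hM0 hE hI hPc
  have hM0ρ : M0 = ∫ y, ρ0 y ∂m := by rw [hM0def, hρ0]
  have hM0pos : 1 / 2 ≤ M0 := by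
    rw [hM0ρ]
    have h1 : ∫ y, (1 / 2 : ℝ) ∂m ≤ ∫ y, ρ0 y ∂m :=
      integral_mono (integrable_const _) hρ0int hρ0lo
    rwa [integral_const, smul_eq_mul, probReal_univ, one_mul] at h1
  have hM0le : M0 ≤ 3 / 2 := by
    rw [hM0ρ]
    have h1 : ∫ y, ρ0 y ∂m ≤ ∫ y, (3 / 2 : ℝ) ∂m :=
      integral_mono hρ0int (integrable_const _) hρ0hi
    rwa [integral_const, smul_eq_mul, probReal_univ, one_mul] at h1
  obtain ⟨ρ1, hρ1⟩ : ∃ ρ1 : X → ℝ, ρ1 = fun x => M0 * qQ ε (f x) := ⟨_, rfl⟩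
  have hQm : Measurable fun x => qQ ε (f x) := (h33_measurable_qQ ε).comp hfm
  have hρ1m : Measurable ρ1 := by rw [hρ1]; exact hQm.const_mul _
  have hρ1x : ∀ x, M0 * qQ ε (f x) = ρ1 x := fun x => by rw [hρ1]
  have hρ1b : ∀ x, 0 < ρ1 x ∧ ρ1 x ≤ 4 := fun x => by
    rw [hρ1]
    obtain ⟨-, -, h1, h2⟩ := hb _ (hfI x)
    constructor
    · exact mul_pos (by linarith) (by linarith)
    · show M0 * qQ ε (f x) ≤ 4
      have e1 := mul_le_mul hM0le h2 (by linarith) (by norm_num : (0 : ℝ) ≤ 3 / 2)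
      linarith
  simp only [hρ0x, hρ1x] at hPc hI
  obtain ⟨s, hs⟩ : ∃ s : X × X → ℝ, s = fun z => (ε - (3 * N - 1) / 3 * ε ^ 2 * f z.1) /
    (ρ0 z.1 * ((ρ1 z.2 ^ (-(1 / N)) + 2 * qP N ε (f z.1) ^ (-(1 / (N - 1)))) / 3)) := ⟨_, rfl⟩
  have hsm : Measurable s := by
    rw [hs]
    have hVm : Measurable fun x => ε - (3 * N - 1) / 3 * ε ^ 2 * f x :=
      measurable_const.sub (hfm.const_mul _)
    have hu1m : Measurable fun x => ρ1 x ^ (-(1 / N)) := hρ1m.pow_const _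
    have hu0m : Measurable fun x => qP N ε (f x) ^ (-(1 / (N - 1))) :=
      ((h33_measurable_qP N ε).comp hfm).pow_const _
    exact (hVm.comp measurable_fst).div ((hρ0m.comp measurable_fst).mul
      (((hu1m.comp measurable_snd).add ((hu0m.comp measurable_fst).const_mul 2)).div_const 3))
  have hsn : ∀ z, |s z - ε| ≤ C * ε ^ 2 := by
    intro z
    have h1 := hw' (f z.1) (hfI z.1) (f z.2) (hfI z.2) M0 hM0
    rw [hρ1x, hρ0x] at h1
    obtain ⟨⟨b1, -, -⟩, b4⟩ := h1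
    obtain ⟨w, hwd⟩ : ∃ w : ℝ, w = (ρ1 z.2 ^ (-(1 / N)) +
      2 * qP N ε (f z.1) ^ (-(1 / (N - 1)))) / 3 := ⟨_, rfl⟩
    have hsz : s z = (ε - (3 * N - 1) / 3 * ε ^ 2 * f z.1) / (ρ0 z.1 * w) := by
      rw [hs, hwd]
    rw [← hwd] at b1 b4
    have hfz : |f z.1| ≤ B := hfb _
    have hfz2 : |f z.2| ≤ B := hfb _
    generalize f z.1 = t at *
    generalize f z.2 = τ at *
    obtain ⟨v, hv⟩ : ∃ v : ℝ, v = 1 - (3 * N - 1) / 3 * ε * t := ⟨_, rfl⟩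
    have hv1 : |v - 1| ≤ cv * ε := by
      rw [hv, hcv]
      have e1 : 1 - (3 * N - 1) / 3 * ε * t - 1 = -((3 * N - 1) / 3 * ε * t) := by ring
      rw [e1, abs_neg, abs_mul, abs_of_nonneg (show 0 ≤ (3 * N - 1) / 3 * ε by positivity)]
      calc (3 * N - 1) / 3 * ε * |t| ≤ (3 * N - 1) / 3 * ε * B :=
            mul_le_mul_of_nonneg_left hfz (by positivity)
        _ = _ := by ring
    have hcvε : cv * ε ≤ 1 / 2 := by
      refine le_trans (mul_le_mul_of_nonneg_right ?_ hε0.le) hCε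
      rw [hC]; linarith
    have e2 : (ε - (3 * N - 1) / 3 * ε ^ 2 * t) ^ 2 / (ρ0 z.1 * w) =
        ε ^ 2 * (v ^ 2 * (1 / (ρ0 z.1 * w))) := by rw [hv]; ring
    have hx : |v ^ 2 * (1 / (ρ0 z.1 * w)) - 1| ≤ c6 * ε := by
      rw [e2] at b4
      obtain ⟨r, hr⟩ : ∃ r : ℝ, r = ε ^ 2 * (-(N * (3 * N - 2) / 6) * t ^ 2 + τ ^ 2 / (18 * N) +
        (3 * N + 2) / 18 - 1 / (18 * N)) := ⟨_, rfl⟩
      rw [← hr] at b4
      have hrb : |r| ≤ c7 * ε ^ 2 := by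
        rw [hr, abs_mul, abs_of_nonneg (show (0 : ℝ) ≤ ε ^ 2 by positivity), mul_comm]
        refine mul_le_mul_of_nonneg_right ?_ (by positivity)
        have e3 : -(N * (3 * N - 2) / 6) * t ^ 2 + τ ^ 2 / (18 * N) +
          (3 * N + 2) / 18 - 1 / (18 * N) = (-(N * (3 * N - 2) / 6) * t ^ 2 +
            τ ^ 2 / (18 * N)) + ((3 * N + 2) / 18 - 1 / (18 * N)) := by ring
        rw [e3, hc7]
        have ht2 : |t ^ 2| ≤ B ^ 2 := by
          rw [abs_pow]; exact pow_le_pow_left₀ (abs_nonneg _) hfz 2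
        have hτ2 : τ ^ 2 ≤ B ^ 2 := by
          rw [← sq_abs]; exact pow_le_pow_left₀ (abs_nonneg _) hfz2 2
        refine (abs_add_le _ _).trans (add_le_add ((abs_add_le _ _).trans (add_le_add ?_ ?_))
          le_rfl)
        · rw [abs_mul]; exact mul_le_mul_of_nonneg_left ht2 (abs_nonneg _)
        · rw [abs_of_nonneg (by positivity)]
          exact div_le_div_of_nonneg_right hτ2 (by positivity)
      have e4 : ε ^ 2 * (v ^ 2 * (1 / (ρ0 z.1 * w))) - ε ^ 2 * (1 - N * ε * t + r) =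
          ε ^ 2 * ((v ^ 2 * (1 / (ρ0 z.1 * w)) - 1) - (-(N * ε * t) + r)) := by ring
      rw [e4, abs_mul, abs_of_nonneg (show (0 : ℝ) ≤ ε ^ 2 by positivity)] at b4
      have b5 : |(v ^ 2 * (1 / (ρ0 z.1 * w)) - 1) - (-(N * ε * t) + r)| ≤ C3 * ε ^ 3 := by
        have e5 : C3 * ε ^ 5 = ε ^ 2 * (C3 * ε ^ 3) := by ring
        rw [e5] at b4
        exact le_of_mul_le_mul_left b4 (by positivity)
      have b6 : |-(N * ε * t) + r| ≤ N * B * ε + c7 * ε ^ 2 := by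
        refine (abs_add_le _ _).trans (add_le_add ?_ hrb)
        rw [abs_neg, abs_mul, abs_of_nonneg (show 0 ≤ N * ε by positivity)]
        calc N * ε * |t| ≤ N * ε * B := mul_le_mul_of_nonneg_left hfz (by positivity)
          _ = _ := by ring
      have b7 : |v ^ 2 * (1 / (ρ0 z.1 * w)) - 1| ≤ C3 * ε ^ 3 + (N * B * ε + c7 * ε ^ 2) := by
        have e6 : v ^ 2 * (1 / (ρ0 z.1 * w)) - 1 = ((v ^ 2 * (1 / (ρ0 z.1 * w)) - 1) -
          (-(N * ε * t) + r)) + (-(N * ε * t) + r) := by ring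
        rw [e6]
        exact (abs_add_le _ _).trans (add_le_add b5 b6)
      refine b7.trans ?_
      have k1 : ε ^ 3 ≤ ε := by
        have := pow_le_one₀ (n := 2) hε0.le hε6.le
        linarith [mul_le_mul_of_nonneg_left this hε0.le]
      have k2 : ε ^ 2 ≤ ε := by linarith [mul_le_mul_of_nonneg_left hε6.le hε0.le]
      have k3 := mul_le_mul_of_nonneg_left k1 hC3.le
      have k4 := mul_le_mul_of_nonneg_left k2 hc70
      rw [hc6]
      linarith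
    have h2 := h33_slope_alg hε0 hv1 hcvε hx
    have e7 : s z - ε = ε * v * (1 / (ρ0 z.1 * w)) - ε := by rw [hsz, hv]; ring
    rw [e7]
    refine h2.trans (mul_le_mul_of_nonneg_right ?_ (by positivity))
    rw [hC]; linarith
  refine ⟨P, ρ0, ρ1, s, hρ0m, hρ1m, fun x => (hρ1b x).1.le, fun x => (hρ1b x).2, hCε, hρ0n, hPc,
    hsm, hsn, ?_⟩
  have e8 : (fun z : X × X => (dist z.1 z.2 - (ε - (3 * N - 1) / 3 * ε ^ 2 * f z.1) * g0 z.1 /
      (ρ0 z.1 * ((ρ1 z.2 ^ (-(1 / N)) + 2 * qP N ε (f z.1) ^ (-(1 / (N - 1)))) / 3))) ^ 2) =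
      fun z => (dist z.1 z.2 - s z * g0 z.1) ^ 2 := by
    funext z
    rw [hs]
    simp only []
    congr 2
    ring
  rw [e8] at hI
  rw [h33_G0 h, h33_G1 h, h33_G2 h] at hI
  have hd4n : 0 ≤ ∫ z, dist z.1 z.2 ^ 4 ∂P := integral_nonneg fun z => by positivity
  unfold h33Lam
  generalize (∫ z, dist z.1 z.2 ^ 4 ∂P) = I4 at *
  generalize (∫ z, (dist z.1 z.2 - s z * g0 z.1) ^ 2 ∂P) = I5 at *
  generalize (∫ z, g0 z.1 ^ 2 / ρ0 z.1 * f z.2 ^ 2 ∂P) = I6 at *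
  generalize (∫ x, f x ^ 3 ∂m) = m3 at *
  generalize (∫ x, f x ^ 4 ∂m) = m4 at *
  generalize (M0 ^ (1 - 1 / N) * ∫ x, qQ ε (f x) ^ (1 - 1 / N) ∂m) = Em at *
  have hE2 := (abs_le.1 hE).1
  have hκn : 0 ≤ (1 - 1 / N) * (3 - 1 / N) / 72 := by
    have h1 : 1 / N ≤ 1 := by rw [div_le_one hN0]; exact hN.le
    have h2 : 0 ≤ 1 - 1 / N := by linarith
    have h3 : 0 ≤ 3 - 1 / N := by linarith
    positivity
  have k1 : (1 - 1 / N) * (3 - 1 / N) / 72 * (1 - C * ε) * I4 ≤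
      (1 - 1 / N) * (3 - 1 / N) / 72 * (1 - C5 * ε) * I4 := by
    refine mul_le_mul_of_nonneg_right (mul_le_mul_of_nonneg_left ?_ hκn) hd4n
    have : C5 * ε ≤ C * ε := mul_le_mul_of_nonneg_right (by rw [hC]; linarith) hε0.le
    linarith
  have k2 : (C1 + C5) * ε ^ 5 ≤ C * ε ^ 5 :=
    mul_le_mul_of_nonneg_right (by rw [hC]; linarith) (by positivity)
  have e9 : (1 - 1 / N) / 2 * (ε ^ 2 * N - N * ε ^ 3 * (N / 2 * m3) +
          ε ^ 4 * (-(N * (3 * N - 2) / 6) * (N / 3 * m4) +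
            ((3 * N + 2) / 18 - 1 / (18 * N)) * N + 1 / (18 * N) * I6)) =
      (N - 1) / 2 * ε ^ 2 - (N - 1) * N / 4 * m3 * ε ^ 3 + (1 - 1 / N) / 2 *
        (-(N * (3 * N - 2) / 6) * (N / 3 * m4) +
            ((3 * N + 2) / 18 - 1 / (18 * N)) * N) * ε ^ 4 +
        (1 - 1 / N) / (36 * N) * I6 * ε ^ 4 := by
    field_simp
    ring
  rw [e9] at hI
  linarith

end B

end H13CD
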