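import Pool.Agent.Helper33.CD.FourthC

/-!
# Module N: third and fourth moments
-/

open MeasureTheory Set Filter Topology
open scoped ENNReal NNReal

namespace H13CD

lemma h33_le_zero {Q c ε0 : ℝ} (h0 : 0 < ε0) (h : ∀ ε ∈ Ioo (0 : ℝ) ε0, Q ≤ c * ε) : Q ≤ 0 := by
  by_contra hQ
  push Not at hQ
  have h1 : 0 < |c| + 1 := by positivity
  have h2 : 0 < min (ε0 / 2) (Q / (2 * (|c| + 1))) := by positivity
  have h3 := h (min (ε0 / 2) (Q / (2 * (|c| + 1)))) ⟨h2, by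
    refine (min_le_left _ _).trans_lt ?_
    linarith⟩
  have h4 : c * min (ε0 / 2) (Q / (2 * (|c| + 1))) ≤ (|c| + 1) * (Q / (2 * (|c| + 1))) := by
    refine mul_le_mul ?_ (min_le_right _ _) h2.le h1.le
    linarith [le_abs_self c]
  have h5 : (|c| + 1) * (Q / (2 * (|c| + 1))) = Q / 2 := by field_simp
  linarith

section D
variable {X : Type*} [MetricSpace X] [CompactSpace X] [MeasurableSpace X] [BorelSpace X]
  {m : Measure X} [IsProbabilityMeasure m]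

lemma h33_mono {F : X → ℝ} (hF : Measurable F) (h0 : ∀ x, 0 ≤ F x) {c : ℝ}
    (h : ∀ n : ℕ, ∫ x, min (F x) n ^ 2 ∂m ≤ c) : Integrable (fun x => F x ^ 2) m ∧
    Tendsto (fun n : ℕ => ∫ x, min (F x) n ^ 2 ∂m) atTop (𝓝 (∫ x, F x ^ 2 ∂m)) := by
  have hmm : ∀ n : ℕ, Measurable fun x => min (F x) (n : ℝ) ^ 2 := fun n =>
    (hF.min measurable_const).pow_const 2
  have hm0 : ∀ (n : ℕ) x, 0 ≤ min (F x) (n : ℝ) := fun n x => le_min (h0 x) (Nat.cast_nonneg n)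
  have hmi : ∀ n : ℕ, Integrable (fun x => min (F x) (n : ℝ) ^ 2) m := fun n => by
    refine Integrable.of_bound (hmm n).aestronglyMeasurable ((n : ℝ) ^ 2) (ae_of_all _ fun x => ?_)
    rw [Real.norm_eq_abs, abs_of_nonneg (sq_nonneg _)]
    exact pow_le_pow_left₀ (hm0 n x) (min_le_right _ _) 2
  have hlim : ∀ x, Tendsto (fun n : ℕ => min (F x) (n : ℝ) ^ 2) atTop (𝓝 (F x ^ 2)) := fun x => by
    obtain ⟨k, hk⟩ := exists_nat_ge (F x)
    refine tendsto_const_nhds.congr' ?_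
    filter_upwards [eventually_ge_atTop k] with n hn
    rw [min_eq_left (hk.trans (Nat.cast_le.2 hn))]
  have hint : Integrable (fun x => F x ^ 2) m := by
    refine ⟨(hF.pow_const 2).aestronglyMeasurable, ?_⟩
    rw [hasFiniteIntegral_iff_ofReal (ae_of_all _ fun x => sq_nonneg _)]
    have h1 : Tendsto (fun n : ℕ => ∫⁻ x, ENNReal.ofReal (min (F x) (n : ℝ) ^ 2) ∂m) atTop
        (𝓝 (∫⁻ x, ENNReal.ofReal (F x ^ 2) ∂m)) := by
      refine lintegral_tendsto_of_tendsto_of_monotone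
        (fun n => (hmm n).ennreal_ofReal.aemeasurable) (ae_of_all _ fun x => ?_)
        (ae_of_all _ fun x => (ENNReal.continuous_ofReal.tendsto _).comp (hlim x))
      intro a b hab
      refine ENNReal.ofReal_le_ofReal (pow_le_pow_left₀ (hm0 a x) ?_ 2)
      exact min_le_min_left _ (Nat.cast_le.2 hab)
    have h2 : ∫⁻ x, ENNReal.ofReal (F x ^ 2) ∂m ≤ ENNReal.ofReal c := by
      refine le_of_tendsto h1 (Eventually.of_forall fun n => ?_)
      rw [← ofReal_integral_eq_lintegral_ofReal (hmi n) (ae_of_all _ fun x => sq_nonneg _)]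
      exact ENNReal.ofReal_le_ofReal (h n)
    exact lt_of_le_of_lt h2 ENNReal.ofReal_lt_top
  refine ⟨hint, ?_⟩
  refine tendsto_integral_of_dominated_convergence (fun x => F x ^ 2)
    (fun n => (hmm n).aestronglyMeasurable) hint (fun n => ae_of_all _ fun x => ?_)
    (ae_of_all _ hlim)
  rw [Real.norm_eq_abs, abs_of_nonneg (sq_nonneg _)]
  exact pow_le_pow_left₀ (hm0 n x) (min_le_left _ _) 2

lemma h33_rho_bds {ρ0 : X → ℝ} {δ : ℝ} (hδ : δ ≤ 1 / 2) (h : ∀ x, |ρ0 x - 1| ≤ δ) :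
    (∀ x, 1 / 2 ≤ ρ0 x) ∧ (∀ x, ρ0 x ≤ 2) ∧ (∀ x, 1 - δ ≤ ρ0 x) ∧ ∀ x, ρ0 x ≤ 1 + δ := by
  refine ⟨fun x => ?_, fun x => ?_, fun x => ?_, fun x => ?_⟩ <;>
  · have := abs_le.1 (h x)
    linarith [this.1, this.2]

/-- bound for the mixed term -/
lemma h33_K_le {P : Measure (X × X)} {ρ0 f g0 : X → ℝ} {ν : Measure X} {B G0 : ℝ}
    (hc : Cpl P (dens m ρ0) ν) (h0m : Measurable ρ0) (hlo : ∀ x, 1 / 2 ≤ ρ0 x)
    (hhi : ∀ x, ρ0 x ≤ 2) (hf : Measurable f) (hb : ∀ x, |f x| ≤ B) (hg : Measurable g0)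
    (hg2 : Integrable (fun x => g0 x ^ 2) m) (hG : ∫ x, g0 x ^ 2 ∂m = G0) :
    Integrable (fun z : X × X => g0 z.1 ^ 2 / ρ0 z.1) P ∧
    ∫ z, g0 z.1 ^ 2 / ρ0 z.1 * f z.2 ^ 2 ∂P ≤ B ^ 2 * G0 := by
  have hpos : ∀ x, 0 < ρ0 x := fun x => by linarith [hlo x]
  have hPm : P.map Prod.fst ≤ ENNReal.ofReal 2 • m := h33_map_le hc hhi
  have i0 : Integrable (fun z : X × X => g0 z.1 ^ 2 / ρ0 z.1) P := by
    refine (h33_int_fst_mul hPm hg2 (F := fun z : X × X => 1 / ρ0 z.1)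
      ((measurable_const.div h0m).comp measurable_fst) (D := 2) ?_).congr (ae_of_all _ fun z => ?_)
    · intro z
      rw [abs_of_nonneg (by have := hpos z.1; positivity), div_le_iff₀ (hpos _)]
      linarith [hlo z.1]
    · simp only []; ring
  refine ⟨i0, ?_⟩
  have h1 : ∫ z, g0 z.1 ^ 2 / ρ0 z.1 * f z.2 ^ 2 ∂P ≤ ∫ z, B ^ 2 * (g0 z.1 ^ 2 / ρ0 z.1) ∂P := by
    refine integral_mono_of_nonneg (ae_of_all _ fun z => ?_) (i0.const_mul _)
      (ae_of_all _ fun z => ?_)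
    · have := hpos z.1
      simp only [Pi.zero_apply]
      positivity
    · simp only []
      rw [mul_comm]
      refine mul_le_mul_of_nonneg_right ?_ (div_nonneg (sq_nonneg _) (hpos z.1).le)
      rw [← sq_abs]
      exact pow_le_pow_left₀ (abs_nonneg _) (hb _) 2
  rw [integral_const_mul, h33_integral_fst_div (k := fun x => g0 x ^ 2) hc h0m hpos
    (hg.pow_const 2), hG] at h1
  exact h1

lemma h33_p_bounds {N : ℝ} (hN : 1 < N) : 0 < 1 - 1 / N ∧ 1 - 1 / N ≤ 1 ∧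
    0 < (1 - 1 / N) * (3 - 1 / N) / 72 ∧ 0 ≤ (1 - 1 / N) / (36 * N) ∧
    (1 - 1 / N) / (36 * N) ≤ 1 := by
  have hN0 : 0 < N := by linarith
  have h0 : 0 < 1 / N := by positivity
  have h1 : 1 / N < 1 := by rw [div_lt_one hN0]; exact hN
  have h2 : 0 < 1 - 1 / N := by linarith
  have h3 : 0 < 3 - 1 / N := by linarith
  refine ⟨h2, by linarith, by positivity, by positivity, ?_⟩
  rw [div_le_one (by positivity)]
  linarith

theorem h33_m3_nonneg {N : ℝ} (hN : 1 < N) (hcd : CDr m N) {B : ℝ} (hB : 0 < B) {f g0 : X → ℝ}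
    (h : Extremal m N B f g0) : 0 ≤ ∫ x, f x ^ 3 ∂m := by
  obtain ⟨C, hC, a, ha, H⟩ := h33_package hN hcd hB h
  obtain ⟨hp, hp1, hκ, hq0, hq1⟩ := h33_p_bounds hN
  have hG := h33_G0 h
  have hc : 0 < (N - 1) * (N + 2) / 12 := by
    have : 0 < N - 1 := by linarith
    positivity
  have hN0 : 0 < N := by linarith
  have key : ∀ ε ∈ Ioo (0 : ℝ) (min a 1), (N - 1) * (N + 2) / 12 * (-(∫ x, f x ^ 3 ∂m)) ≤
      (|h33Lam N (∫ x, f x ^ 4 ∂m)| + B ^ 2 * N + C) * ε := by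
    intro ε hε
    have hε0 := hε.1
    have hεa : ε < a := hε.2.trans_le (min_le_left _ _)
    have hε1 : ε < 1 := hε.2.trans_le (min_le_right _ _)
    obtain ⟨P, ρ0, ρ1, s, h0m, h1m, h10, h14, hCε, hρ, hPc, hsm, hsn, hI⟩ := H ε ⟨hε0, hεa⟩
    obtain ⟨b1, b2, b3, b4⟩ := h33_rho_bds hCε hρ
    obtain ⟨-, hK⟩ := h33_K_le hPc h0m b1 b2 h.lim.meas h.lim.bound h.lim.gmeas h.lim.gL2 hG
    have hI4 : 0 ≤ ∫ z, dist z.1 z.2 ^ 4 ∂P := integral_nonneg fun z => by positivity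
    have hJ : 0 ≤ ∫ z, (dist z.1 z.2 - s z * g0 z.1) ^ 2 ∂P :=
      integral_nonneg fun z => sq_nonneg _
    have hKn : 0 ≤ ∫ z, g0 z.1 ^ 2 / ρ0 z.1 * f z.2 ^ 2 ∂P := integral_nonneg fun z => by
      have : 0 ≤ ρ0 z.1 := by linarith [b1 z.1]
      simp only [Pi.zero_apply]
      positivity
    generalize (∫ z, dist z.1 z.2 ^ 4 ∂P) = I4 at *
    generalize (∫ z, (dist z.1 z.2 - s z * g0 z.1) ^ 2 ∂P) = J at *
    generalize (∫ z, g0 z.1 ^ 2 / ρ0 z.1 * f z.2 ^ 2 ∂P) = K at *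
    generalize (∫ x, f x ^ 3 ∂m) = m3 at *
    generalize h33Lam N (∫ x, f x ^ 4 ∂m) = Λ at *
    have t1 : 0 ≤ (1 - 1 / N) * (3 - 1 / N) / 72 * (1 - C * ε) * I4 := by
      have : 0 ≤ 1 - C * ε := by linarith
      positivity
    have t2 : 0 ≤ (1 - 1 / N) / 4 * J := by positivity
    have t3 : -(|Λ| * ε ^ 4) ≤ Λ * ε ^ 4 := by
      have := mul_le_mul_of_nonneg_right (neg_abs_le Λ) (show 0 ≤ ε ^ 4 by positivity)
      linarith
    have t4 : (1 - 1 / N) / (36 * N) * K * ε ^ 4 ≤ B ^ 2 * N * ε ^ 4 := by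
      refine mul_le_mul_of_nonneg_right ?_ (by positivity)
      calc (1 - 1 / N) / (36 * N) * K ≤ 1 * K := mul_le_mul_of_nonneg_right hq1 hKn
        _ ≤ _ := by rw [one_mul]; exact hK
    have t5 : C * ε ^ 5 ≤ C * ε ^ 4 := by
      refine mul_le_mul_of_nonneg_left ?_ hC.le
      exact pow_le_pow_of_le_one hε0.le hε1.le (by norm_num)
    have t6 : (N - 1) * (N + 2) / 12 * (-m3) * ε ^ 3 ≤ (|Λ| + B ^ 2 * N + C) * ε * ε ^ 3 := by
      have e1 : (|Λ| + B ^ 2 * N + C) * ε * ε ^ 3 = |Λ| * ε ^ 4 + B ^ 2 * N * ε ^ 4 + C * ε ^ 4 := by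
        ring
      rw [e1]
      linarith
    exact le_of_mul_le_mul_right t6 (by positivity)
  have h1 := h33_le_zero (by positivity) key
  nlinarith

end D

end H13CD
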