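import Pool.Agent.Helper33.CD.FourthD

/-!
# Module N: order `ε⁴`
-/

open MeasureTheory Set Filter Topology
open scoped ENNReal NNReal

namespace H13CD

variable {X : Type*} [MetricSpace X] [CompactSpace X] [MeasurableSpace X] [BorelSpace X]
  {m : Measure X} [IsProbabilityMeasure m]

/-- pointwise estimate used to compare `a²` with `ε² g²` -/
lemma h33_sq_ge {a c ε : ℝ} (hε : 0 < ε) (hc : 0 ≤ c) :
    c ^ 2 - ((1 + 1 / ε) * (a - c) ^ 2 + ε * c ^ 2) ≤ a ^ 2 := by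
  have h1 : 0 ≤ (1 / ε) * ((a - c) + ε * c) ^ 2 := by positivity
  have e1 : (1 / ε) * ((a - c) + ε * c) ^ 2 = (1 / ε) * (a - c) ^ 2 + 2 * (a - c) * c +
      ε * c ^ 2 := by
    field_simp
    ring
  have e2 : a ^ 2 = c ^ 2 + 2 * (a - c) * c + (a - c) ^ 2 := by ring
  nlinarith [sq_nonneg (a - c)]

/-- lower bound for the fourth moment of the distance -/
lemma h33_I4_ge {P : Measure (X × X)} [IsFiniteMeasure P] {ρ0 g0 : X → ℝ} {ν : Measure X}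
    {N C c3 ε : ℝ} (hN : 0 ≤ N)
    (hc : Cpl P (dens m ρ0) ν) (h0m : Measurable ρ0) (hCε : C * ε ≤ 1 / 2) (hC : 0 ≤ C)
    (hρ : ∀ x, |ρ0 x - 1| ≤ C * ε) (hg : Measurable g0) (hg0 : ∀ x, 0 ≤ g0 x)
    (hg2 : Integrable (fun x => g0 x ^ 2) m) (hG : ∫ x, g0 x ^ 2 ∂m = N) (hε : 0 < ε)
    (hε1 : ε ≤ 1) (hc3 : 0 ≤ c3)
    (hD : ∫ z, (dist z.1 z.2 - ε * g0 z.1) ^ 2 ∂P ≤ c3 * ε ^ 4) (n : ℕ) :
    ε ^ 4 * ∫ x, min (g0 x ^ 2) n ^ 2 ∂m -
      (4 * n * c3 + 4 * n * N + 2 * n * C * N + C * n ^ 2) * ε ^ 5 ≤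
      ∫ z, dist z.1 z.2 ^ 4 ∂P := by
  obtain ⟨b1, b2, b3, b4⟩ := h33_rho_bds hCε hρ
  have hpos : ∀ x, 0 < ρ0 x := fun x => by linarith [b1 x]
  have hPm : P.map Prod.fst ≤ ENNReal.ofReal 2 • m := h33_map_le hc b2
  obtain ⟨T, hT⟩ : ∃ T : X → ℝ, T = fun x => min (g0 x ^ 2) (n : ℝ) := ⟨_, rfl⟩
  have hTx : ∀ x, min (g0 x ^ 2) (n : ℝ) = T x := fun x => by rw [hT]
  simp only [hTx]
  have hTm : Measurable T := by rw [hT]; exact (hg.pow_const 2).min measurable_const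
  have hT0 : ∀ x, 0 ≤ T x := fun x => by
    rw [hT]; exact le_min (sq_nonneg _) (Nat.cast_nonneg n)
  have hTn : ∀ x, T x ≤ n := fun x => by rw [hT]; exact min_le_right _ _
  have hTg : ∀ x, T x ≤ g0 x ^ 2 := fun x => by rw [hT]; exact min_le_left _ _
  have hn0 : (0 : ℝ) ≤ n := Nat.cast_nonneg n
  have hTabs : ∀ x, |T x| ≤ n := fun x => by rw [abs_of_nonneg (hT0 x)]; exact hTn x
  have hdm : Measurable (fun z : X × X => dist z.1 z.2) := by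
    have : Continuous (fun z : X × X => dist z.1 z.2) := by fun_prop
    exact this.measurable
  -- integrability on `P`
  have hg2P : Integrable (fun z : X × X => g0 z.1 ^ 2) P := h33_int_fst hPm hg2
  have hT2i : Integrable (fun x => T x ^ 2) m := by
    refine Integrable.of_bound (hTm.pow_const 2).aestronglyMeasurable ((n : ℝ) ^ 2)
      (ae_of_all _ fun x => ?_)
    rw [Real.norm_eq_abs, abs_pow]
    exact pow_le_pow_left₀ (abs_nonneg _) (hTabs x) 2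
  have hT2P : Integrable (fun z : X × X => T z.1 ^ 2) P := h33_int_fst hPm hT2i
  have hgTi : Integrable (fun x => g0 x ^ 2 * T x) m := by
    refine hg2.mul_bdd (c := (n : ℝ)) hTm.aestronglyMeasurable (ae_of_all _ fun x => ?_)
    rw [Real.norm_eq_abs]; exact hTabs x
  have hgTP : Integrable (fun z : X × X => g0 z.1 ^ 2 * T z.1) P := h33_int_fst hPm hgTi
  have hDi : Integrable (fun z : X × X => (dist z.1 z.2 - ε * g0 z.1) ^ 2) P := by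
    have hmaj : Integrable (fun z : X × X => 2 * dist z.1 z.2 ^ 2 + 2 * ε ^ 2 * g0 z.1 ^ 2) P :=
      ((h33_int_dist_pow 2).const_mul 2).add (hg2P.const_mul _)
    refine hmaj.mono' ((hdm.sub ((hg.comp measurable_fst).const_mul ε)).pow_const
      2).aestronglyMeasurable (ae_of_all _ fun z => ?_)
    rw [Real.norm_eq_abs, abs_of_nonneg (sq_nonneg _)]
    nlinarith [sq_nonneg (dist z.1 z.2 + ε * g0 z.1)]
  -- pointwise lower bound for `a⁴`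
  have hpt : ∀ z : X × X, 2 * ε ^ 4 * (g0 z.1 ^ 2 * T z.1) - ε ^ 4 * T z.1 ^ 2 -
      (2 * ε ^ 2 * n * (1 + 1 / ε) * (dist z.1 z.2 - ε * g0 z.1) ^ 2 +
        2 * ε ^ 5 * n * g0 z.1 ^ 2) ≤ dist z.1 z.2 ^ 4 := by
    intro z
    have h1 := h33_sq_ge (a := dist z.1 z.2) (c := ε * g0 z.1) hε
      (mul_nonneg hε.le (hg0 z.1))
    generalize dist z.1 z.2 = a at *
    have h2 : 0 ≤ T z.1 := hT0 z.1
    have h3 : T z.1 ≤ n := hTn z.1
    generalize T z.1 = t at *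
    generalize g0 z.1 = g at *
    have h4 : 2 * ε ^ 2 * a ^ 2 * t - ε ^ 4 * t ^ 2 ≤ a ^ 4 := by
      nlinarith [sq_nonneg (a ^ 2 - ε ^ 2 * t)]
    have h5 : 0 ≤ (1 + 1 / ε) * (a - ε * g) ^ 2 + ε * (ε * g) ^ 2 := by positivity
    have h6 : ((1 + 1 / ε) * (a - ε * g) ^ 2 + ε * (ε * g) ^ 2) * t ≤
        ((1 + 1 / ε) * (a - ε * g) ^ 2 + ε * (ε * g) ^ 2) * n :=
      mul_le_mul_of_nonneg_left h3 h5
    have h7 : ((ε * g) ^ 2 - ((1 + 1 / ε) * (a - ε * g) ^ 2 + ε * (ε * g) ^ 2)) * t ≤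
        a ^ 2 * t := mul_le_mul_of_nonneg_right h1 h2
    have h8 : (ε * g) ^ 2 * t - ((1 + 1 / ε) * (a - ε * g) ^ 2 + ε * (ε * g) ^ 2) * n ≤
        a ^ 2 * t := by linarith
    have h9 := mul_le_mul_of_nonneg_left h8 (show 0 ≤ 2 * ε ^ 2 by positivity)
    calc 2 * ε ^ 4 * (g ^ 2 * t) - ε ^ 4 * t ^ 2 -
      (2 * ε ^ 2 * n * (1 + 1 / ε) * (a - ε * g) ^ 2 + 2 * ε ^ 5 * n * g ^ 2)
        = 2 * ε ^ 2 * ((ε * g) ^ 2 * t - ((1 + 1 / ε) * (a - ε * g) ^ 2 +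
          ε * (ε * g) ^ 2) * n) - ε ^ 4 * t ^ 2 := by ring
      _ ≤ 2 * ε ^ 2 * (a ^ 2 * t) - ε ^ 4 * t ^ 2 := by linarith
      _ ≤ _ := by linarith
  have j1 : Integrable (fun z : X × X => 2 * ε ^ 4 * (g0 z.1 ^ 2 * T z.1)) P :=
    hgTP.const_mul _
  have j2 : Integrable (fun z : X × X => ε ^ 4 * T z.1 ^ 2) P := hT2P.const_mul _
  have j3 : Integrable (fun z : X × X => 2 * ε ^ 2 * n * (1 + 1 / ε) *
      (dist z.1 z.2 - ε * g0 z.1) ^ 2) P := hDi.const_mul _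
  have j4 : Integrable (fun z : X × X => 2 * ε ^ 5 * n * g0 z.1 ^ 2) P := hg2P.const_mul _
  have j12 : Integrable (fun z : X × X => 2 * ε ^ 4 * (g0 z.1 ^ 2 * T z.1) -
      ε ^ 4 * T z.1 ^ 2) P := j1.sub j2
  have j34 : Integrable (fun z : X × X => 2 * ε ^ 2 * n * (1 + 1 / ε) *
      (dist z.1 z.2 - ε * g0 z.1) ^ 2 + 2 * ε ^ 5 * n * g0 z.1 ^ 2) P := j3.add j4
  have hmono := integral_mono (j12.sub j34) (h33_int_dist_pow (P := P) 4) hpt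
  have e1 : ∫ z, (2 * ε ^ 4 * (g0 z.1 ^ 2 * T z.1) - ε ^ 4 * T z.1 ^ 2 -
      (2 * ε ^ 2 * n * (1 + 1 / ε) * (dist z.1 z.2 - ε * g0 z.1) ^ 2 +
        2 * ε ^ 5 * n * g0 z.1 ^ 2)) ∂P =
      2 * ε ^ 4 * ∫ x, ρ0 x * (g0 x ^ 2 * T x) ∂m - ε ^ 4 * ∫ x, ρ0 x * T x ^ 2 ∂m -
      (2 * ε ^ 2 * n * (1 + 1 / ε) * ∫ z, (dist z.1 z.2 - ε * g0 z.1) ^ 2 ∂P +
        2 * ε ^ 5 * n * ∫ x, ρ0 x * g0 x ^ 2 ∂m) := by
    rw [integral_sub j12 j34, integral_sub j1 j2, integral_add j3 j4, integral_const_mul,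
      integral_const_mul, integral_const_mul, integral_const_mul,
      h33_integral_fst (k := fun x => g0 x ^ 2 * T x) hc h0m (fun x => (hpos x).le)
        ((hg.pow_const 2).mul hTm),
      h33_integral_fst (k := fun x => T x ^ 2) hc h0m (fun x => (hpos x).le) (hTm.pow_const 2),
      h33_integral_fst (k := fun x => g0 x ^ 2) hc h0m (fun x => (hpos x).le) (hg.pow_const 2)]
  have hmono' : ∫ z, (2 * ε ^ 4 * (g0 z.1 ^ 2 * T z.1) - ε ^ 4 * T z.1 ^ 2 -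
      (2 * ε ^ 2 * n * (1 + 1 / ε) * (dist z.1 z.2 - ε * g0 z.1) ^ 2 +
        2 * ε ^ 5 * n * g0 z.1 ^ 2)) ∂P ≤ ∫ z, dist z.1 z.2 ^ 4 ∂P := hmono
  rw [e1] at hmono'
  -- bounds with `ρ0` close to one
  have hρi : ∀ k : X → ℝ, Integrable k m → Integrable (fun x => ρ0 x * k x) m := fun k hk => by
    refine hk.bdd_mul (c := 2) h0m.aestronglyMeasurable (ae_of_all _ fun x => ?_)
    rw [Real.norm_eq_abs, abs_of_pos (hpos x)]
    exact b2 x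
  have f1 : (1 - C * ε) * ∫ x, g0 x ^ 2 * T x ∂m ≤ ∫ x, ρ0 x * (g0 x ^ 2 * T x) ∂m := by
    rw [← integral_const_mul]
    refine integral_mono (hgTi.const_mul _) (hρi _ hgTi) fun x => ?_
    exact mul_le_mul_of_nonneg_right (b3 x) (mul_nonneg (sq_nonneg _) (hT0 x))
  have f2 : ∫ x, ρ0 x * T x ^ 2 ∂m ≤ (1 + C * ε) * ∫ x, T x ^ 2 ∂m := by
    rw [← integral_const_mul]
    refine integral_mono (hρi _ hT2i) (hT2i.const_mul _) fun x => ?_
    exact mul_le_mul_of_nonneg_right (b4 x) (sq_nonneg _)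
  have f3 : ∫ x, ρ0 x * g0 x ^ 2 ∂m ≤ 2 * N := by
    rw [← hG, ← integral_const_mul]
    refine integral_mono (hρi _ hg2) (hg2.const_mul _) fun x => ?_
    exact mul_le_mul_of_nonneg_right (b2 x) (sq_nonneg _)
  have f4 : ∫ x, g0 x ^ 2 * T x ∂m ≤ n * N := by
    rw [← hG, ← integral_const_mul]
    refine integral_mono hgTi (hg2.const_mul _) fun x => ?_
    simp only []
    rw [mul_comm]
    exact mul_le_mul_of_nonneg_right (hTn x) (sq_nonneg _)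
  have f5 : ∫ x, T x ^ 2 ∂m ≤ (n : ℝ) ^ 2 := by
    have h1 : ∫ x, T x ^ 2 ∂m ≤ ∫ _, ((n : ℝ) ^ 2) ∂m := by
      refine integral_mono hT2i (integrable_const _) fun x => ?_
      exact pow_le_pow_left₀ (hT0 x) (hTn x) 2
    rwa [integral_const, smul_eq_mul, probReal_univ, one_mul] at h1
  have f6 : ∫ x, T x ^ 2 ∂m ≤ ∫ x, g0 x ^ 2 * T x ∂m := by
    refine integral_mono hT2i hgTi fun x => ?_
    simp only []
    rw [sq (T x)]
    exact mul_le_mul_of_nonneg_right (hTg x) (hT0 x)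
  generalize (∫ z, (dist z.1 z.2 - ε * g0 z.1) ^ 2 ∂P) = D at *
  generalize (∫ z, dist z.1 z.2 ^ 4 ∂P) = I4 at *
  generalize (∫ x, ρ0 x * (g0 x ^ 2 * T x) ∂m) = A1 at *
  generalize (∫ x, ρ0 x * T x ^ 2 ∂m) = A2 at *
  generalize (∫ x, ρ0 x * g0 x ^ 2 ∂m) = A3 at *
  generalize (∫ x, g0 x ^ 2 * T x ∂m) = S1 at *
  generalize (∫ x, T x ^ 2 ∂m) = S2 at *
  -- collect
  have g1 : 2 * ε ^ 4 * ((1 - C * ε) * S1) ≤ 2 * ε ^ 4 * A1 :=
    mul_le_mul_of_nonneg_left f1 (by positivity)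
  have g2 : ε ^ 4 * A2 ≤ ε ^ 4 * ((1 + C * ε) * S2) :=
    mul_le_mul_of_nonneg_left f2 (by positivity)
  have g3 : 2 * ε ^ 5 * n * A3 ≤ 2 * ε ^ 5 * n * (2 * N) :=
    mul_le_mul_of_nonneg_left f3 (by positivity)
  have g4 : 2 * ε ^ 2 * n * (1 + 1 / ε) * D ≤ 4 * n * c3 * ε ^ 5 := by
    have h1 : 2 * ε ^ 2 * n * (1 + 1 / ε) * D ≤ 2 * ε ^ 2 * n * (1 + 1 / ε) * (c3 * ε ^ 4) :=
      mul_le_mul_of_nonneg_left hD (by positivity)
    refine h1.trans ?_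
    have e2 : 2 * ε ^ 2 * n * (1 + 1 / ε) * (c3 * ε ^ 4) = 2 * n * c3 * ε ^ 5 * (ε + 1) := by
      field_simp
    rw [e2]
    have h2 : 0 ≤ 2 * n * c3 * ε ^ 5 := by positivity
    nlinarith
  have g5 : 2 * ε ^ 4 * (C * ε * S1) ≤ 2 * n * C * N * ε ^ 5 := by
    have h1 : C * ε * S1 ≤ C * ε * (n * N) := mul_le_mul_of_nonneg_left f4 (by positivity)
    have h2 := mul_le_mul_of_nonneg_left h1 (show 0 ≤ 2 * ε ^ 4 by positivity)
    refine h2.trans (le_of_eq (by ring))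
  have g6 : ε ^ 4 * (C * ε * S2) ≤ C * n ^ 2 * ε ^ 5 := by
    have h1 : C * ε * S2 ≤ C * ε * n ^ 2 := mul_le_mul_of_nonneg_left f5 (by positivity)
    have h2 := mul_le_mul_of_nonneg_left h1 (show 0 ≤ ε ^ 4 by positivity)
    refine h2.trans (le_of_eq (by ring))
  have g7 : 2 * ε ^ 4 * S2 ≤ 2 * ε ^ 4 * S1 := mul_le_mul_of_nonneg_left f6 (by positivity)
  nlinarith

/-- the mixed term converges -/
lemma h33_K_le2 {P : Measure (X × X)} [IsFiniteMeasure P] {ρ0 f g0 : X → ℝ} {ν : Measure X}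
    {B lam : ℝ}
    (hc : Cpl P (dens m ρ0) ν) (h0m : Measurable ρ0) (hlo : ∀ x, 1 / 2 ≤ ρ0 x)
    (hhi : ∀ x, ρ0 x ≤ 2) (hf : Measurable f) (hb : ∀ x, |f x| ≤ B) (hg : Measurable g0)
    (hg2 : Integrable (fun x => g0 x ^ 2) m) (hg4 : Integrable (fun x => g0 x ^ 4) m)
    (hlam : 0 < lam) :
    ∫ z, g0 z.1 ^ 2 / ρ0 z.1 * f z.2 ^ 2 ∂P ≤ ∫ x, f x ^ 2 * g0 x ^ 2 ∂m +
      lam * ∫ x, g0 x ^ 4 ∂m + 1 / (2 * lam) * ∫ z, (f z.1 ^ 2 - f z.2 ^ 2) ^ 2 ∂P := by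
  have hpos : ∀ x, 0 < ρ0 x := fun x => by linarith [hlo x]
  have hPm : P.map Prod.fst ≤ ENNReal.ofReal 2 • m := h33_map_le hc hhi
  have hinv : ∀ x, |1 / ρ0 x| ≤ 2 := fun x => by
    rw [abs_of_nonneg (by have := hpos x; positivity), div_le_iff₀ (hpos _)]
    linarith [hlo x]
  have hinvm : Measurable fun x => 1 / ρ0 x := measurable_const.div h0m
  have i1 : Integrable (fun z : X × X => f z.1 ^ 2 * g0 z.1 ^ 2 / ρ0 z.1) P := by
    refine (h33_int_fst_mul hPm hg2 (F := fun z : X × X => f z.1 ^ 2 * (1 / ρ0 z.1))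
      (((hf.pow_const 2).mul hinvm).comp measurable_fst) (D := B ^ 2 * 2) ?_).congr
      (ae_of_all _ fun z => ?_)
    · intro z
      rw [abs_mul, abs_pow]
      exact mul_le_mul (pow_le_pow_left₀ (abs_nonneg _) (hb _) 2) (hinv _) (abs_nonneg _)
        (by positivity)
    · simp only []; ring
  have i2 : Integrable (fun z : X × X => g0 z.1 ^ 4 / ρ0 z.1) P := by
    refine (h33_int_fst_mul hPm hg4 (F := fun z : X × X => 1 / ρ0 z.1)
      (hinvm.comp measurable_fst) (D := 2) fun z => hinv z.1).congr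
      (ae_of_all _ fun z => ?_)
    simp only []; ring
  have i3 : Integrable (fun z : X × X => (f z.1 ^ 2 - f z.2 ^ 2) ^ 2) P := by
    refine Integrable.of_bound ((((hf.comp measurable_fst).pow_const 2).sub
      ((hf.comp measurable_snd).pow_const 2)).pow_const 2).aestronglyMeasurable
      ((B ^ 2 + B ^ 2) ^ 2) (ae_of_all _ fun z => ?_)
    rw [Real.norm_eq_abs, abs_pow]
    refine pow_le_pow_left₀ (abs_nonneg _) ((abs_sub _ _).trans (add_le_add ?_ ?_)) 2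
    · rw [abs_pow]; exact pow_le_pow_left₀ (abs_nonneg _) (hb _) 2
    · rw [abs_pow]; exact pow_le_pow_left₀ (abs_nonneg _) (hb _) 2
  have hpt : ∀ z : X × X, g0 z.1 ^ 2 / ρ0 z.1 * f z.2 ^ 2 ≤ f z.1 ^ 2 * g0 z.1 ^ 2 / ρ0 z.1 +
      lam * (g0 z.1 ^ 4 / ρ0 z.1) + 1 / (2 * lam) * (f z.1 ^ 2 - f z.2 ^ 2) ^ 2 := by
    intro z
    have h1 := hlo z.1
    have h2 := hpos z.1
    generalize f z.1 ^ 2 = a at *
    generalize f z.2 ^ 2 = b at *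
    generalize ρ0 z.1 = r at *
    generalize g0 z.1 = g at *
    have h3 : g ^ 2 / r * (b - a) ≤ lam / 2 * (g ^ 2 / r) ^ 2 + 1 / (2 * lam) * (a - b) ^ 2 := by
      have h4 : 0 ≤ 1 / (2 * lam) * (lam * (g ^ 2 / r) + (a - b)) ^ 2 := by positivity
      have e1 : 1 / (2 * lam) * (lam * (g ^ 2 / r) + (a - b)) ^ 2 =
          lam / 2 * (g ^ 2 / r) ^ 2 + g ^ 2 / r * (a - b) + 1 / (2 * lam) * (a - b) ^ 2 := by
        field_simp
        ring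
      nlinarith
    have h5 : lam / 2 * (g ^ 2 / r) ^ 2 ≤ lam * (g ^ 4 / r) := by
      have e2 : lam / 2 * (g ^ 2 / r) ^ 2 = lam * (g ^ 4 / r) * (1 / 2 * (1 / r)) := by
        field_simp
      rw [e2]
      have h6 : 1 / 2 * (1 / r) ≤ 1 := by
        have : 1 / r ≤ 2 := by
          rw [div_le_iff₀ h2]; linarith
        linarith
      have h7 : 0 ≤ lam * (g ^ 4 / r) := by positivity
      nlinarith
    have e3 : g ^ 2 / r * b = a * g ^ 2 / r + g ^ 2 / r * (b - a) := by ring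
    rw [e3]
    linarith
  have j12 : Integrable (fun z : X × X => f z.1 ^ 2 * g0 z.1 ^ 2 / ρ0 z.1 +
      lam * (g0 z.1 ^ 4 / ρ0 z.1)) P := i1.add (i2.const_mul _)
  have j3 : Integrable (fun z : X × X => 1 / (2 * lam) * (f z.1 ^ 2 - f z.2 ^ 2) ^ 2) P :=
    i3.const_mul _
  have h1 : ∫ z, g0 z.1 ^ 2 / ρ0 z.1 * f z.2 ^ 2 ∂P ≤ ∫ z, (f z.1 ^ 2 * g0 z.1 ^ 2 / ρ0 z.1 +
      lam * (g0 z.1 ^ 4 / ρ0 z.1) + 1 / (2 * lam) * (f z.1 ^ 2 - f z.2 ^ 2) ^ 2) ∂P := by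
    refine integral_mono_of_nonneg (ae_of_all _ fun z => ?_) (j12.add j3) (ae_of_all _ hpt)
    have := hpos z.1
    simp only [Pi.zero_apply]
    positivity
  rw [integral_add j12 j3, integral_add i1 (i2.const_mul _), integral_const_mul,
    integral_const_mul, h33_integral_fst_div (k := fun x => f x ^ 2 * g0 x ^ 2) hc h0m hpos
      ((hf.pow_const 2).mul (hg.pow_const 2)),
    h33_integral_fst_div (k := fun x => g0 x ^ 4) hc h0m hpos (hg.pow_const 4)] at h1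
  exact h1

end H13CD
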